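import Mathlib

/-!
Wild ramification comparison for a finite Galois extension `N / F` in which the residue field does
not grow, phrased with absolute values.
-/

namespace Pool.Agent.R369.Bas

open Polynomial

/-- A nonarchimedean absolute value on `N`, invariant under `Gal(N/F)`, with value group of `F`
equal to the powers of two, `|2| = 1/2`, and no residue field extension. -/
structure RamData (F N : Type*) [Field F] [Field N] [Algebra F N] where
  v : AbsoluteValue N ℝ
  na : ∀ x y, v (x + y) ≤ max (v x) (v y)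
  inv : ∀ (σ : N ≃ₐ[F] N) (x : N), v (σ x) = v x
  valF : ∀ a : F, a ≠ 0 → ∃ k : ℤ, v (algebraMap F N a) = (2 : ℝ) ^ k
  v2 : v 2 = 1 / 2
  res : ∀ x, v x ≤ 1 → ∃ a : F, v (x - algebraMap F N a) < 1

set_option linter.unusedSectionVars false

namespace RamData

variable {F N : Type*} [Field F] [Field N] [Algebra F N] (D : RamData F N)

theorem na_sub (x y : N) : D.v (x - y) ≤ max (D.v x) (D.v y) := by
  have := D.na x (-y)
  rwa [D.v.map_neg, ← sub_eq_add_neg] at this

theorem na_sum {ι : Type*} (s : Finset ι) (f : ι → N) (B : ℝ) (hB : 0 ≤ B)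
    (h : ∀ i ∈ s, D.v (f i) ≤ B) : D.v (∑ i ∈ s, f i) ≤ B := by
  classical
  induction s using Finset.induction_on with
  | empty => simpa using hB
  | insert a s ha ih =>
    rw [Finset.sum_insert ha]
    refine (D.na _ _).trans (max_le (h a (Finset.mem_insert_self a s)) (ih fun i hi =>
      h i (Finset.mem_insert_of_mem hi)))

/-- If the values differ, the value of the sum is the maximum. -/
theorem na_eq (x y : N) (h : D.v y < D.v x) : D.v (x + y) = D.v x := by
  apply le_antisymm
  · exact (D.na x y).trans (max_le le_rfl h.le)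
  · by_contra hlt
    push Not at hlt
    have h1 : D.v x ≤ max (D.v (x + y)) (D.v y) := by
      have := D.na_sub (x + y) y
      simpa using this
    rcases le_max_iff.1 h1 with h2 | h2 <;> linarith

theorem v_one : D.v 1 = 1 := D.v.map_one

/-- Powers: `|x^i - y^i| ≤ |x - y|` for integral `x, y`. -/
theorem pow_sub (x y : N) (hx : D.v x ≤ 1) (hy : D.v y ≤ 1) (i : ℕ) :
    D.v (x ^ i - y ^ i) ≤ D.v (x - y) := by
  induction i with
  | zero => simp
  | succ i ih =>
    have : x ^ (i + 1) - y ^ (i + 1) = x * (x ^ i - y ^ i) + (x - y) * y ^ i := by ring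
    rw [this]
    refine (D.na _ _).trans (max_le ?_ ?_)
    · rw [D.v.map_mul]
      calc D.v x * D.v (x ^ i - y ^ i) ≤ 1 * D.v (x - y) :=
            mul_le_mul hx ih (D.v.nonneg _) zero_le_one
        _ = _ := one_mul _
    · rw [D.v.map_mul, D.v.map_pow]
      calc D.v (x - y) * D.v y ^ i ≤ D.v (x - y) * 1 :=
            mul_le_mul_of_nonneg_left (pow_le_one₀ (D.v.nonneg _) hy) (D.v.nonneg _)
        _ = _ := mul_one _

/-- A polynomial over `F` with integral coefficients. -/
def Int' (p : F[X]) : Prop := ∀ i, D.v (algebraMap F N (p.coeff i)) ≤ 1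

theorem int_aeval_sub (p : F[X]) (hp : D.Int' p) (x y : N) (hx : D.v x ≤ 1) (hy : D.v y ≤ 1) :
    D.v (aeval x p - aeval y p) ≤ D.v (x - y) := by
  rw [aeval_eq_sum_range, aeval_eq_sum_range, ← Finset.sum_sub_distrib]
  refine D.na_sum _ _ _ (D.v.nonneg _) fun i _ => ?_
  rw [← smul_sub, Algebra.smul_def, D.v.map_mul]
  calc _ ≤ 1 * D.v (x - y) :=
        mul_le_mul (hp i) (D.pow_sub x y hx hy i) (D.v.nonneg _) zero_le_one
    _ = _ := one_mul _

theorem int_aeval (p : F[X]) (hp : D.Int' p) (x : N) (hx : D.v x ≤ 1) :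
    D.v (aeval x p) ≤ 1 := by
  rw [aeval_eq_sum_range]
  refine D.na_sum _ _ _ zero_le_one fun i _ => ?_
  rw [Algebra.smul_def, D.v.map_mul, D.v.map_pow]
  exact mul_le_one₀ (hp i) (by positivity) (pow_le_one₀ (D.v.nonneg _) hx)

theorem int_add (p q : F[X]) (hp : D.Int' p) (hq : D.Int' q) : D.Int' (p + q) := by
  intro i
  rw [coeff_add, map_add]
  exact (D.na _ _).trans (max_le (hp i) (hq i))

section Galois

variable [FiniteDimensional F N] [IsGalois F N]

open scoped Classical in
/-- Value group of `N` is discrete. -/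
theorem val_pow (x : N) (hx : x ≠ 0) :
    ∃ k : ℤ, D.v x ^ (Fintype.card (N ≃ₐ[F] N)) = (2 : ℝ) ^ k := by
  have h := Algebra.norm_eq_prod_automorphisms F x
  have h0 : Algebra.norm F x ≠ 0 := by
    rw [Algebra.norm_ne_zero_iff]
    exact hx
  obtain ⟨k, hk⟩ := D.valF _ h0
  refine ⟨k, ?_⟩
  rw [← hk, h, map_prod]
  rw [Finset.prod_congr rfl fun σ _ => D.inv σ x]
  simp

/-- Existence of a uniformizer. -/
theorem exists_unif : ∃ P : N, P ≠ 0 ∧ D.v P < 1 ∧ ∀ x, D.v x < 1 → D.v x ≤ D.v P := by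
  classical
  set n := Fintype.card (N ≃ₐ[F] N) with hn
  have hn0 : n ≠ 0 := Fintype.card_ne_zero
  have hex : ∃ b : ℕ, 1 ≤ b ∧ ∃ x : N, x ≠ 0 ∧ D.v x ^ n = (1 / 2 : ℝ) ^ b := by
    refine ⟨n, Nat.one_le_iff_ne_zero.2 hn0, 2, ?_, ?_⟩
    · intro h
      have := D.v2
      rw [h, D.v.map_zero] at this
      norm_num at this
    · rw [D.v2]
  obtain ⟨hb1, P, hP0, hP⟩ := Nat.find_spec hex
  set b := Nat.find hex with hb
  refine ⟨P, hP0, ?_, ?_⟩
  · by_contra h
    push Not at h
    have h1 : (1 : ℝ) ≤ D.v P ^ n := one_le_pow₀ h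
    rw [hP] at h1
    have : (1 / 2 : ℝ) ^ b < 1 := pow_lt_one₀ (by norm_num) (by norm_num) (by omega)
    linarith
  · intro x hx
    by_cases hx0 : x = 0
    · rw [hx0, D.v.map_zero]
      exact D.v.nonneg _
    obtain ⟨k, hk⟩ := D.val_pow x hx0
    rw [← hn] at hk
    have hlt : D.v x ^ n < 1 := pow_lt_one₀ (D.v.nonneg _) hx hn0
    rw [hk] at hlt
    have hk0 : k < 0 := by
      by_contra hk0
      push Not at hk0
      have : (1 : ℝ) ≤ (2 : ℝ) ^ k := one_le_zpow₀ (by norm_num) hk0
      linarith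
    obtain ⟨c, hc⟩ : ∃ c : ℕ, k = -(c : ℤ) := ⟨k.natAbs, by omega⟩
    have hc1 : 1 ≤ c := by omega
    have hxc : D.v x ^ n = (1 / 2 : ℝ) ^ c := by
      rw [hk, hc, zpow_neg, zpow_natCast, one_div, inv_pow]
    have hbc : b ≤ c := Nat.find_min' hex ⟨hc1, x, hx0, hxc⟩
    have : D.v x ^ n ≤ D.v P ^ n := by
      rw [hxc, hP]
      exact pow_le_pow_of_le_one (by norm_num) (by norm_num) hbc
    exact (pow_le_pow_iff_left₀ (D.v.nonneg _) (D.v.nonneg _) hn0).1 this

/-- Approximation of integral elements by integral polynomials in the uniformizer. -/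
theorem approx (P : N) (hP0 : P ≠ 0) (hPm : ∀ x, D.v x < 1 → D.v x ≤ D.v P) (k : ℕ) :
    ∀ x, D.v x ≤ 1 → ∃ p : F[X], D.Int' p ∧ D.v (x - aeval P p) ≤ D.v P ^ k := by
  induction k with
  | zero =>
    intro x hx
    refine ⟨0, ?_, ?_⟩
    · intro i
      simp
    · simpa using hx
  | succ k ih =>
    intro x hx
    obtain ⟨a, ha⟩ := D.res x hx
    have hPpos : 0 < D.v P := D.v.pos hP0
    have hy : D.v ((x - algebraMap F N a) / P) ≤ 1 := by
      rw [map_div₀]
      exact div_le_one_of_le₀ (hPm _ ha) hPpos.le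
    obtain ⟨p, hp, hpx⟩ := ih _ hy
    refine ⟨C a + X * p, ?_, ?_⟩
    · apply D.int_add
      · intro i
        rw [coeff_C]
        split_ifs
        · have : algebraMap F N a = x - (x - algebraMap F N a) := by ring
          rw [this]
          exact (D.na_sub _ _).trans (max_le hx ha.le)
        · simp
      · intro i
        cases i with
        | zero => simp
        | succ i => rw [coeff_X_mul]; exact hp i
    · have : x - aeval P (C a + X * p) = P * ((x - algebraMap F N a) / P - aeval P p) := by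
        simp only [map_add, aeval_C, map_mul, aeval_X]
        field_simp
        ring
      rw [this, D.v.map_mul, pow_succ, mul_comm]
      exact mul_le_mul_of_nonneg_right hpx hPpos.le

theorem eq_of_small (x : N) (r : ℝ) (hr0 : 0 ≤ r) (hr : r < 1) (h : ∀ k : ℕ, D.v x ≤ r ^ k) :
    x = 0 := by
  have h1 : D.v x ≤ 0 := by
    refine ge_of_tendsto' (tendsto_pow_atTop_nhds_zero_of_lt_one hr0 hr) h
  have h2 : D.v x = 0 := le_antisymm h1 (D.v.nonneg _)
  exact (D.v.eq_zero).1 h2

/-- The stabilizer of the uniformizer is trivial. -/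
theorem stab_triv (P : N) (hP0 : P ≠ 0) (hP1 : D.v P < 1)
    (hPm : ∀ x, D.v x < 1 → D.v x ≤ D.v P) (σ : N ≃ₐ[F] N) (hσ : σ P = P) : σ = 1 := by
  have h1 : ∀ x, D.v x ≤ 1 → σ x = x := by
    intro x hx
    have : σ x - x = 0 := by
      apply D.eq_of_small _ (D.v P) (D.v.nonneg _) hP1
      intro k
      obtain ⟨p, hp, hpx⟩ := D.approx P hP0 hPm k x hx
      have e1 : σ (aeval P p) = aeval P p := by
        rw [← Polynomial.aeval_algHom_apply σ P p, hσ]
      have e : σ x - x = σ (x - aeval P p) - (x - aeval P p) := by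
        rw [map_sub, e1]
        ring
      rw [e]
      refine (D.na_sub _ _).trans (max_le ?_ hpx)
      rw [D.inv]
      exact hpx
    exact sub_eq_zero.1 this
  ext x
  have h2 : ∃ j : ℕ, D.v (2 ^ j * x) ≤ 1 := by
    obtain ⟨j, hj⟩ := exists_nat_gt (D.v x)
    refine ⟨j, ?_⟩
    rw [D.v.map_mul, D.v.map_pow, D.v2]
    have h3 : (j : ℝ) < 2 ^ j := by exact_mod_cast Nat.lt_two_pow_self
    rw [one_div, inv_pow]
    rw [inv_mul_le_iff₀ (by positivity)]
    linarith
  obtain ⟨j, hj⟩ := h2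
  have h3 := h1 _ hj
  rw [map_mul, map_pow, map_ofNat] at h3
  have h4 : (2 : N) ^ j ≠ 0 := by
    intro h
    have := congrArg D.v h
    rw [D.v.map_pow, D.v2, D.v.map_zero] at this
    have : (1 / 2 : ℝ) ^ j > 0 := by positivity
    linarith
  simpa using mul_left_cancel₀ h4 h3

end Galois

end RamData

end Pool.Agent.R369.Bas
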