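import Mathlib
import Pool.Agent.R369.Bas.Ram

/-!
Wild ramification comparison, second part: every integral element is an integral polynomial in the
uniformizer.
-/

namespace Pool.Agent.R369.Bas

open Polynomial

set_option linter.unusedSectionVars false

namespace RamData

variable {F N : Type*} [Field F] [Field N] [Algebra F N] (D : RamData F N)
variable [FiniteDimensional F N] [IsGalois F N]

open scoped Classical in
/-- The interpolation polynomial taking the value `σ z` at `σ P`. -/
noncomputable def interp (F : Type*) {N : Type*} [Field F] [Field N] [Algebra F N]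
    [FiniteDimensional F N] (P z : N) : N[X] :=
  Lagrange.interpolate (Finset.univ : Finset (N ≃ₐ[F] N)) (fun σ => σ P) (fun σ => σ z)

open scoped Classical in
theorem interp_map (P z : N) (hinj : Function.Injective fun σ : N ≃ₐ[F] N => σ P)
    (τ : N ≃ₐ[F] N) : (interp F P z).map (τ : N →+* N) = interp F P z := by
  unfold interp
  apply Lagrange.eq_interpolate_of_eval_eq _ hinj.injOn
  · rw [degree_map]
    exact Lagrange.degree_interpolate_lt _ hinj.injOn
  · intro σ _
    have h1 : σ P = (τ : N →+* N) ((τ⁻¹ * σ) P) := by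
      simp [AlgEquiv.mul_apply]
    rw [h1, eval_map_apply, Lagrange.eval_interpolate_at_node _ hinj.injOn (Finset.mem_univ _)]
    simp [AlgEquiv.mul_apply]

theorem interp_eval (P z : N) (hinj : Function.Injective fun σ : N ≃ₐ[F] N => σ P) :
    (interp F P z).eval P = z := by
  classical
  unfold interp
  have h := Lagrange.eval_interpolate_at_node (s := (Finset.univ : Finset (N ≃ₐ[F] N)))
    (fun σ => σ z) hinj.injOn (Finset.mem_univ (1 : N ≃ₐ[F] N))
  simpa using h

/-- There is a constant bounding the coefficients of the interpolation polynomials. -/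
theorem interp_bound (P : N) : ∃ C : ℝ, 0 ≤ C ∧ ∀ z i, D.v ((interp F P z).coeff i) ≤ C * D.v z := by
  classical
  set ℓ : (N ≃ₐ[F] N) → N[X] :=
    fun σ => Lagrange.basis (Finset.univ : Finset (N ≃ₐ[F] N)) (fun σ => σ P) σ with hℓ
  refine ⟨∑ σ : N ≃ₐ[F] N, ∑ i ∈ (ℓ σ).support, D.v ((ℓ σ).coeff i),
    Finset.sum_nonneg fun σ _ => Finset.sum_nonneg fun i _ => D.v.nonneg _, ?_⟩
  intro z i
  have hz : (interp F P z).coeff i = ∑ σ : N ≃ₐ[F] N, σ z * (ℓ σ).coeff i := by
    unfold interp
    rw [Lagrange.interpolate_apply, finsetSum_coeff]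
    exact Finset.sum_congr rfl fun σ _ => by rw [coeff_C_mul]
  rw [hz]
  have hC : 0 ≤ ∑ σ : N ≃ₐ[F] N, ∑ i ∈ (ℓ σ).support, D.v ((ℓ σ).coeff i) :=
    Finset.sum_nonneg fun σ _ => Finset.sum_nonneg fun i _ => D.v.nonneg _
  refine D.na_sum _ _ _ (mul_nonneg hC (D.v.nonneg _)) fun σ _ => ?_
  rw [D.v.map_mul, D.inv, mul_comm]
  refine mul_le_mul_of_nonneg_right ?_ (D.v.nonneg _)
  have h1 : D.v ((ℓ σ).coeff i) ≤ ∑ i ∈ (ℓ σ).support, D.v ((ℓ σ).coeff i) := by
    by_cases hi : i ∈ (ℓ σ).support
    · exact Finset.single_le_sum (f := fun i => D.v ((ℓ σ).coeff i))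
        (fun i _ => D.v.nonneg _) hi
    · rw [notMem_support_iff.1 hi, D.v.map_zero]
      exact Finset.sum_nonneg fun i _ => D.v.nonneg _
  refine h1.trans ?_
  exact Finset.single_le_sum (f := fun σ => ∑ i ∈ (ℓ σ).support, D.v ((ℓ σ).coeff i))
    (fun σ _ => Finset.sum_nonneg fun i _ => D.v.nonneg _) (Finset.mem_univ σ)

/-- Every integral element is an integral polynomial in the uniformizer. -/
theorem exact_int (P : N) (hP0 : P ≠ 0) (hP1 : D.v P < 1)
    (hPm : ∀ x, D.v x < 1 → D.v x ≤ D.v P) (x : N) (hx : D.v x ≤ 1) :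
    ∃ p : F[X], D.Int' p ∧ aeval P p = x := by
  classical
  have hinj : Function.Injective fun σ : N ≃ₐ[F] N => σ P := by
    intro σ τ h
    have h1 : (τ⁻¹ * σ) P = P := by
      have h' : σ P = τ P := h
      rw [AlgEquiv.mul_apply, h', ← AlgEquiv.mul_apply, inv_mul_cancel, AlgEquiv.one_apply]
    have h2 := D.stab_triv P hP0 hP1 hPm _ h1
    exact (inv_mul_eq_one.1 h2).symm
  obtain ⟨C, hC0, hC⟩ := D.interp_bound (F := F) P
  obtain ⟨k, hk⟩ : ∃ k : ℕ, C * D.v P ^ k ≤ 1 := by
    have ht := (tendsto_pow_atTop_nhds_zero_of_lt_one (D.v.nonneg P) hP1).const_mul C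
    rw [mul_zero] at ht
    have := (ht.eventually (gt_mem_nhds (zero_lt_one))).exists
    obtain ⟨k, hk⟩ := this
    exact ⟨k, hk.le⟩
  obtain ⟨p, hp, hpx⟩ := D.approx P hP0 hPm k x hx
  set z := x - aeval P p with hz
  have hlift : interp F P z ∈ lifts (algebraMap F N) := by
    rw [lifts_iff_coeff_lifts]
    intro i
    rw [IsGalois.mem_range_algebraMap_iff_fixed]
    intro τ
    have h1 := congrArg (fun q => q.coeff i) (interp_map (F := F) P z hinj τ)
    simpa using h1
  obtain ⟨q, hq⟩ := (mem_lifts _).1 hlift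
  refine ⟨p + q, D.int_add p q hp ?_, ?_⟩
  · intro i
    have h1 : algebraMap F N (q.coeff i) = (interp F P z).coeff i := by
      rw [← hq, coeff_map]
    rw [h1]
    calc D.v ((interp F P z).coeff i) ≤ C * D.v z := hC z i
      _ ≤ C * D.v P ^ k := mul_le_mul_of_nonneg_left hpx hC0
      _ ≤ 1 := hk
  · have h2 : aeval P q = z := by
      rw [← interp_eval (F := F) P z hinj, ← hq, eval_map_algebraMap]
    rw [map_add, h2, hz]
    ring

end RamData

end Pool.Agent.R369.Bas
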