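import Mathlib
import Pool.Agent.R369.Bas.Ram2

/-!
Wild ramification comparison, third part: the displacement function of the uniformizer.
-/

namespace Pool.Agent.R369.Bas

open Polynomial

set_option linter.unusedSectionVars false

namespace RamData

variable {F N : Type*} [Field F] [Field N] [Algebra F N] (D : RamData F N)

/-- The subring of integral elements. -/
def O : Subring N where
  carrier := {x | D.v x ≤ 1}
  zero_mem' := by simp
  one_mem' := by simp
  add_mem' := fun {a b} ha hb => (D.na a b).trans (max_le ha hb)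
  mul_mem' := fun {a b} ha hb => by
    simp only [Set.mem_ofPred_eq, D.v.map_mul] at *
    exact mul_le_one₀ ha (D.v.nonneg _) hb
  neg_mem' := fun {a} ha => by
    simp only [Set.mem_ofPred_eq, D.v.map_neg] at *
    exact ha

theorem mem_O (x : N) : x ∈ D.O ↔ D.v x ≤ 1 := Iff.rfl

theorem eval_le_prod (A : N[X]) (hA : ∀ i, D.v (A.coeff i) ≤ 1) (T : Finset N)
    (hT : ∀ a ∈ T, D.v a ≤ 1 ∧ A.eval a = 0) (y : N) (hy : D.v y ≤ 1) :
    D.v (A.eval y) ≤ ∏ a ∈ T, D.v (y - a) := by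
  classical
  have hc : (↑A.coeffs : Set N) ⊆ D.O := by
    intro c hc
    obtain ⟨n, _, rfl⟩ := mem_coeffs_iff.1 hc
    exact hA n
  obtain ⟨A', hA'⟩ : ∃ A' : D.O[X], A'.map D.O.subtype = A := ⟨A.toSubring D.O hc,
    map_toSubring A D.O hc⟩
  by_cases h0 : A' = 0
  · rw [← hA', h0]
    simp only [Polynomial.map_zero, eval_zero, D.v.map_zero]
    exact Finset.prod_nonneg fun a _ => D.v.nonneg _
  let T' : Finset D.O := T.subtype (fun a => a ∈ D.O)
  have hroot : ∀ a ∈ T', A'.IsRoot a := by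
    intro a ha
    have ha' : (a : N) ∈ T := by simpa [T'] using ha
    have h1 := (hT a ha').2
    rw [← hA'] at h1
    have h2 : (A'.map D.O.subtype).eval (D.O.subtype a) = D.O.subtype (A'.eval a) :=
      eval_map_apply _ _
    have h3 : D.O.subtype (A'.eval a) = 0 := by
      rw [← h2]
      exact h1
    exact Subtype.ext h3
  have hdvd : (T'.val.map fun a => X - C a).prod ∣ A' := by
    rw [Multiset.prod_X_sub_C_dvd_iff_le_roots h0, Multiset.le_iff_subset T'.nodup]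
    intro a ha
    rw [mem_roots h0]
    exact hroot a ha
  obtain ⟨B, hB⟩ := hdvd
  let y' : D.O := ⟨y, hy⟩
  have h1 : A.eval y = ((A'.eval y' : D.O) : N) := by
    rw [← hA']
    exact eval_map_apply D.O.subtype y'
  have h2 : A'.eval y' = (∏ a ∈ T', (y' - a)) * B.eval y' := by
    conv_lhs => rw [hB]
    rw [eval_mul]
    congr 1
    rw [show (T'.val.map fun a => X - C a).prod = ∏ a ∈ T', (X - C a) from rfl, eval_prod]
    simp
  rw [h1, h2]
  have h3 : ((((∏ a ∈ T', (y' - a)) * B.eval y' : D.O)) : N)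
      = (∏ a ∈ T', (y - (a : N))) * ((B.eval y' : D.O) : N) := by
    push_cast
    rfl
  rw [h3, D.v.map_mul, map_prod]
  have h4 : ∏ a ∈ T', D.v (y - (a : N)) = ∏ a ∈ T, D.v (y - a) := by
    refine Finset.prod_bij (fun a _ => (a : N)) ?_ ?_ ?_ ?_
    · intro a ha
      simpa [T'] using ha
    · intro a _ b _ h
      exact Subtype.ext h
    · intro a ha
      exact ⟨⟨a, (hT a ha).1⟩, by simpa [T'] using ha, rfl⟩
    · intro a _
      rfl
  rw [h4]
  calc _ ≤ (∏ a ∈ T, D.v (y - a)) * 1 :=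
        mul_le_mul_of_nonneg_left (B.eval y').2 (Finset.prod_nonneg fun a _ => D.v.nonneg _)
    _ = _ := mul_one _

theorem coeff_prod_int {ι : Type*} (s : Finset ι) (f : ι → N) (hf : ∀ i ∈ s, D.v (f i) ≤ 1)
    (n : ℕ) : D.v ((∏ i ∈ s, (X - C (f i))).coeff n) ≤ 1 := by
  classical
  have : ∃ q : D.O[X], q.map D.O.subtype = ∏ i ∈ s, (X - C (f i)) := by
    induction s using Finset.induction_on with
    | empty => exact ⟨1, by simp⟩
    | insert a s ha ih =>
      obtain ⟨q, hq⟩ := ih fun i hi => hf i (Finset.mem_insert_of_mem hi)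
      refine ⟨(X - C ⟨f a, hf a (Finset.mem_insert_self a s)⟩) * q, ?_⟩
      rw [Finset.prod_insert ha, Polynomial.map_mul, hq]
      simp
  obtain ⟨q, hq⟩ := this
  rw [← hq, coeff_map]
  exact (q.coeff n).2

/-- A uniformizer. -/
structure Unif where
  P : N
  P0 : P ≠ 0
  P1 : D.v P < 1
  Pm : ∀ x, D.v x < 1 → D.v x ≤ D.v P

variable [FiniteDimensional F N] [IsGalois F N]

theorem exists_unif' : Nonempty D.Unif := by
  obtain ⟨P, h1, h2, h3⟩ := D.exists_unif
  exact ⟨⟨P, h1, h2, h3⟩⟩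

variable {D} (U : D.Unif)

namespace Unif

/-- Displacement of the uniformizer. -/
noncomputable def t (σ : N ≃ₐ[F] N) : ℝ := D.v (σ U.P - U.P)

theorem t_nonneg (σ : N ≃ₐ[F] N) : 0 ≤ U.t σ := D.v.nonneg _

theorem t_one : U.t 1 = 0 := by
  unfold t
  simp

theorem t_lip (σ : N ≃ₐ[F] N) (x : N) (hx : D.v x ≤ 1) : D.v (σ x - x) ≤ U.t σ := by
  obtain ⟨p, hp, hpx⟩ := D.exact_int U.P U.P0 U.P1 U.Pm x hx
  have h1 : σ x = aeval (σ U.P) p := by
    rw [Polynomial.aeval_algHom_apply σ U.P p, hpx]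
  rw [h1, ← hpx]
  exact D.int_aeval_sub p hp _ _ (by rw [D.inv]; exact U.P1.le) U.P1.le

theorem t_mul (σ τ : N ≃ₐ[F] N) : U.t (σ * τ) ≤ max (U.t σ) (U.t τ) := by
  unfold t
  have h : (σ * τ) U.P - U.P = (σ U.P - U.P) + σ (τ U.P - U.P) := by
    rw [map_sub, AlgEquiv.mul_apply]
    ring
  rw [h]
  refine (D.na _ _).trans ?_
  rw [D.inv]

theorem t_pos (σ : N ≃ₐ[F] N) (hσ : σ ≠ 1) : 0 < U.t σ := by
  apply D.v.pos
  intro h
  exact hσ (D.stab_triv U.P U.P0 U.P1 U.Pm σ (sub_eq_zero.1 h))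

theorem t_inv (σ : N ≃ₐ[F] N) : U.t σ⁻¹ = U.t σ := by
  unfold t
  rw [← D.inv σ (σ⁻¹ U.P - U.P), map_sub, ← AlgEquiv.mul_apply, mul_inv_cancel,
    AlgEquiv.one_apply, ← D.v.map_neg, neg_sub]

theorem t_conj (σ τ : N ≃ₐ[F] N) : U.t (τ * σ * τ⁻¹) ≤ U.t σ := by
  have h : U.t (τ * σ * τ⁻¹) = D.v (σ (τ⁻¹ U.P) - τ⁻¹ U.P) := by
    unfold t
    have e1 : τ (τ⁻¹ U.P) = U.P := by
      rw [← AlgEquiv.mul_apply, mul_inv_cancel, AlgEquiv.one_apply]
    have e2 : (τ * σ * τ⁻¹) U.P - U.P = τ (σ (τ⁻¹ U.P) - τ⁻¹ U.P) := by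
      rw [map_sub τ, e1]
      rfl
    rw [e2, D.inv]
  rw [h]
  exact U.t_lip σ _ (by rw [D.inv]; exact U.P1.le)

open scoped Classical in
/-- The stabilizer of an element as a finset. -/
noncomputable def St (F : Type*) {N : Type*} [Field F] [Field N] [Algebra F N]
    [FiniteDimensional F N] (x : N) : Finset (N ≃ₐ[F] N) :=
  Finset.univ.filter fun σ => σ x = x

theorem mem_St (x : N) (σ : N ≃ₐ[F] N) : σ ∈ St F x ↔ σ x = x := by
  unfold St
  simp

theorem P_inj : Function.Injective fun σ : N ≃ₐ[F] N => σ U.P := by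
  intro σ τ h
  have h1 : (τ⁻¹ * σ) U.P = U.P := by
    have h' : σ U.P = τ U.P := h
    rw [AlgEquiv.mul_apply, h', ← AlgEquiv.mul_apply, inv_mul_cancel, AlgEquiv.one_apply]
  have h2 := D.stab_triv U.P U.P0 U.P1 U.Pm _ h1
  exact (inv_mul_eq_one.1 h2).symm

/-- First inequality: `|σ x - x| ≤ ∏_{s ∈ Stab x} |σ s P - P|`. -/
theorem le_prod (x : N) (hx : D.v x ≤ 1) (σ : N ≃ₐ[F] N) :
    D.v (σ x - x) ≤ ∏ s ∈ St F x, U.t (σ * s) := by
  classical
  obtain ⟨p, hp, hpx⟩ := D.exact_int U.P U.P0 U.P1 U.Pm x hx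
  have h := D.eval_le_prod (p.map (algebraMap F N) - C x) ?_
    ((St F x).image fun s => s U.P) ?_ (σ⁻¹ U.P) (by rw [D.inv]; exact U.P1.le)
  · have h1 : (p.map (algebraMap F N) - C x).eval (σ⁻¹ U.P) = σ⁻¹ x - x := by
      rw [eval_sub, eval_C, eval_map_algebraMap, Polynomial.aeval_algHom_apply σ⁻¹ U.P p, hpx]
    rw [h1, Finset.prod_image (fun a _ b _ hab => U.P_inj hab)] at h
    have h2 : D.v (σ⁻¹ x - x) = D.v (σ x - x) := by
      rw [← D.inv σ (σ⁻¹ x - x), map_sub, ← AlgEquiv.mul_apply, mul_inv_cancel,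
        AlgEquiv.one_apply, ← D.v.map_neg, neg_sub]
    rw [h2] at h
    refine h.trans (le_of_eq (Finset.prod_congr rfl fun s _ => ?_))
    unfold t
    rw [← D.inv σ (σ⁻¹ U.P - s U.P), map_sub, ← AlgEquiv.mul_apply, mul_inv_cancel,
        AlgEquiv.one_apply, ← D.v.map_neg, neg_sub]
    rfl
  · intro i
    rw [coeff_sub, coeff_map]
    refine (D.na_sub _ _).trans (max_le (hp i) ?_)
    rw [coeff_C]
    split_ifs
    · exact hx
    · simp
  · intro a ha
    obtain ⟨s, hs, rfl⟩ := Finset.mem_image.1 ha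
    refine ⟨by rw [D.inv]; exact U.P1.le, ?_⟩
    rw [eval_sub, eval_C, eval_map_algebraMap, Polynomial.aeval_algHom_apply s U.P p, hpx,
      (mem_St x s).1 hs, sub_self]

/-- Second inequality, for an element `x` generating the ring of integers of its field. -/
theorem prod_le (x : N) (hx : D.v x ≤ 1)
    (hgen : ∀ y, D.v y ≤ 1 → (∀ s : N ≃ₐ[F] N, s x = x → s y = y) →
      ∀ σ : N ≃ₐ[F] N, D.v (σ y - y) ≤ D.v (σ x - x)) (σ : N ≃ₐ[F] N) :
    ∏ s ∈ St F x, U.t (σ * s) ≤ D.v (σ x - x) := by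
  classical
  set g : N[X] := ∏ s ∈ St F x, (X - C (s U.P)) with hg
  have hgi : ∀ n, D.v (g.coeff n) ≤ 1 := fun n =>
    D.coeff_prod_int _ _ (fun s _ => by rw [D.inv]; exact U.P1.le) n
  have hmap : ∀ τ : N ≃ₐ[F] N, g.map (τ : N →+* N) = ∏ s ∈ St F x, (X - C ((τ * s) U.P)) := by
    intro τ
    rw [hg, Polynomial.map_prod]
    refine Finset.prod_congr rfl fun s _ => ?_
    simp [AlgEquiv.mul_apply]
  have hfix : ∀ τ : N ≃ₐ[F] N, τ x = x → g.map (τ : N →+* N) = g := by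
    intro τ hτ
    rw [hmap, hg]
    refine Finset.prod_bij (fun s _ => τ * s) ?_ ?_ ?_ ?_
    · intro s hs
      rw [mem_St] at hs ⊢
      rw [AlgEquiv.mul_apply, hs, hτ]
    · intro a _ b _ h
      exact mul_left_cancel h
    · intro s hs
      refine ⟨τ⁻¹ * s, ?_, by simp⟩
      rw [mem_St] at hs ⊢
      rw [AlgEquiv.mul_apply, hs]
      conv_lhs => rw [← hτ]
      rw [← AlgEquiv.mul_apply, inv_mul_cancel, AlgEquiv.one_apply]
    · intro s _
      rfl
  have hcoef : ∀ n, D.v (σ (g.coeff n) - g.coeff n) ≤ D.v (σ x - x) := by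
    intro n
    refine hgen (g.coeff n) (hgi n) ?_ σ
    intro s hs
    have := congrArg (fun q => q.coeff n) (hfix s hs)
    simpa using this
  have hev : (g.map (σ : N →+* N) - g).eval U.P = (g.map (σ : N →+* N)).eval U.P := by
    rw [eval_sub]
    have : g.eval U.P = 0 := by
      rw [hg, eval_prod]
      apply Finset.prod_eq_zero (i := (1 : N ≃ₐ[F] N))
      · rw [mem_St]
        rfl
      · simp
    rw [this, sub_zero]
  have h1 : ∏ s ∈ St F x, U.t (σ * s) = D.v ((g.map (σ : N →+* N)).eval U.P) := by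
    rw [hmap, eval_prod, map_prod]
    refine Finset.prod_congr rfl fun s _ => ?_
    unfold t
    rw [← D.v.map_neg, neg_sub]
    simp
  rw [h1, ← hev, eval_eq_sum_range]
  refine D.na_sum _ _ _ (D.v.nonneg _) fun i _ => ?_
  rw [D.v.map_mul, D.v.map_pow, coeff_sub, coeff_map]
  calc _ ≤ D.v (σ x - x) * 1 :=
        mul_le_mul (hcoef i) (pow_le_one₀ (D.v.nonneg _) U.P1.le)
          (by positivity) (D.v.nonneg _)
    _ = _ := mul_one _

end Unif

end RamData

end Pool.Agent.R369.Bas
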