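import Mathlib
import Pool.Agent.R369.Bas.Ram3

/-!
Wild ramification comparison, fourth part: the numerical comparison.
-/

namespace Pool.Agent.R369.Bas

open Polynomial

set_option linter.unusedSectionVars false

namespace RamData

variable {F N : Type*} [Field F] [Field N] [Algebra F N] {D : RamData F N}
variable [FiniteDimensional F N] [IsGalois F N] (U : D.Unif)

namespace Unif

open scoped Classical in
/-- Product of the displacements over the nontrivial elements of the stabilizer. -/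
noncomputable def dd (x : N) : ℝ := ∏ s ∈ (St F x).erase 1, U.t s

theorem dd_nonneg (x : N) : 0 ≤ U.dd x := Finset.prod_nonneg fun s _ => U.t_nonneg s

theorem one_mem_St (x : N) : (1 : N ≃ₐ[F] N) ∈ St F x := by
  rw [mem_St]
  rfl

omit [FiniteDimensional F N] [IsGalois F N] in
theorem two_ne (D : RamData F N) : (2 : N) ≠ 0 := by
  intro h
  have := D.v2
  rw [h, D.v.map_zero] at this
  norm_num at this

/-- The smallest nontrivial displacement. -/
theorem exists_theta [Nontrivial (N ≃ₐ[F] N)] : ∃ θ : ℝ, 0 < θ ∧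
    (∀ σ : N ≃ₐ[F] N, σ ≠ 1 → θ ≤ U.t σ) ∧ ∃ w : N ≃ₐ[F] N, w ≠ 1 ∧ U.t w = θ := by
  classical
  have hne : (Finset.univ.erase (1 : N ≃ₐ[F] N)).Nonempty := by
    obtain ⟨g, hg⟩ := exists_ne (1 : N ≃ₐ[F] N)
    exact ⟨g, by simp [hg]⟩
  obtain ⟨w, hw, hmin⟩ := Finset.exists_min_image _ U.t hne
  have hw1 : w ≠ 1 := by simpa using hw
  exact ⟨U.t w, U.t_pos w hw1, fun σ hσ => hmin σ (by simp [hσ]), w, hw1, rfl⟩

/-- Upper comparison: if the conjugates of `β` generate, then `c ≤ θ * dd β` for each lower bound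
`c` for the distances from `β` to its other conjugates. -/
theorem upper (θ : ℝ) (hmin : ∀ σ : N ≃ₐ[F] N, σ ≠ 1 → θ ≤ U.t σ)
    (hw : ∃ w : N ≃ₐ[F] N, w ≠ 1 ∧ U.t w = θ) (β : N) (hβ : D.v β ≤ 1)
    (hcore : ∀ σ : N ≃ₐ[F] N, (∀ τ : N ≃ₐ[F] N, σ (τ β) = τ β) → σ = 1) (c : ℝ)
    (hc : ∀ σ : N ≃ₐ[F] N, σ β ≠ β → c ≤ D.v (σ β - β)) : c ≤ θ * U.dd β := by
  classical
  obtain ⟨w, hwt, hwβ⟩ : ∃ w : N ≃ₐ[F] N, U.t w ≤ θ ∧ w β ≠ β := by
    by_contra hcon
    push Not at hcon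
    obtain ⟨w, hw1, hwt⟩ := hw
    apply hw1
    apply hcore
    intro τ
    have h1 : U.t (τ⁻¹ * w * τ) ≤ θ := by
      have := U.t_conj w τ⁻¹
      rw [inv_inv] at this
      rw [← hwt]
      exact this
    have h2 := hcon _ h1
    have h3 := congrArg τ h2
    rw [AlgEquiv.mul_apply, AlgEquiv.mul_apply, ← AlgEquiv.mul_apply τ τ⁻¹, mul_inv_cancel,
      AlgEquiv.one_apply] at h3
    exact h3
  have hw1 : w ≠ 1 := by
    rintro rfl
    exact hwβ rfl
  have hwt' : U.t w = θ := le_antisymm hwt (hmin w hw1)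
  have h1 := (hc w hwβ).trans (U.le_prod β hβ w)
  refine h1.trans (le_of_eq ?_)
  unfold dd
  rw [← Finset.mul_prod_erase _ _ (one_mem_St β), mul_one, hwt']
  congr 1
  refine Finset.prod_congr rfl fun s hs => ?_
  rw [Finset.mem_erase, mem_St] at hs
  obtain ⟨hs1, hsβ⟩ := hs
  have hts := hmin s hs1
  rcases lt_or_eq_of_le hts with hlt | heq
  · apply le_antisymm
    · refine (U.t_mul w s).trans (max_le ?_ le_rfl)
      rw [hwt']
      exact hts
    · have h2 : U.t s ≤ max (U.t w⁻¹) (U.t (w * s)) := by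
        have := U.t_mul w⁻¹ (w * s)
        rwa [inv_mul_cancel_left] at this
      rw [U.t_inv, hwt'] at h2
      rcases le_max_iff.1 h2 with h3 | h3
      · linarith
      · exact h3
  · apply le_antisymm
    · refine (U.t_mul w s).trans (max_le ?_ le_rfl)
      rw [hwt', heq]
    · rw [← heq]
      apply hmin
      intro h
      apply hwβ
      have : w = s⁻¹ := eq_inv_of_mul_eq_one_left h
      rw [this]
      conv_lhs => rw [← hsβ]
      rw [← AlgEquiv.mul_apply, inv_mul_cancel, AlgEquiv.one_apply]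

/-- Stabilizer of a square. -/
theorem dd_sq (x : N) (hx : x ≠ 0) (g : N ≃ₐ[F] N) (hg : g x = -x) :
    U.dd (x ^ 2) = U.dd x * ∏ s ∈ St F x, U.t (g * s) := by
  classical
  have hxx : -x ≠ x := by
    intro h
    have h1 : 2 * x = 0 := by linear_combination -h
    rcases mul_eq_zero.1 h1 with h2 | h2
    · exact two_ne D h2
    · exact hx h2
  have hset : (St F (x ^ 2)).erase 1 =
      (St F x).erase 1 ∪ (St F x).image (fun s => g * s) := by
    ext σ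
    simp only [Finset.mem_erase, Finset.mem_union, Finset.mem_image, mem_St]
    constructor
    · rintro ⟨h1, h2⟩
      rw [map_pow] at h2
      rcases sq_eq_sq_iff_eq_or_eq_neg.1 h2 with h3 | h3
      · exact Or.inl ⟨h1, h3⟩
      · right
        refine ⟨g⁻¹ * σ, ?_, by simp⟩
        rw [AlgEquiv.mul_apply, h3, ← hg, ← AlgEquiv.mul_apply, inv_mul_cancel,
          AlgEquiv.one_apply]
    · rintro (⟨h1, h2⟩ | ⟨s, hs, rfl⟩)
      · exact ⟨h1, by rw [map_pow, h2]⟩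
      · constructor
        · intro h
          have h3 : (g * s) x = x := by rw [h]; rfl
          rw [AlgEquiv.mul_apply, hs, hg] at h3
          exact hxx h3
        · rw [map_pow, AlgEquiv.mul_apply, hs, hg, neg_sq]
  unfold dd
  rw [hset, Finset.prod_union]
  · rw [Finset.prod_image]
    intro a _ b _ h
    exact mul_left_cancel h
  · rw [Finset.disjoint_left]
    intro σ h1 h2
    obtain ⟨s, hs, rfl⟩ := Finset.mem_image.1 h2
    rw [Finset.mem_erase, mem_St] at h1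
    rw [mem_St] at hs
    have h3 := h1.2
    rw [AlgEquiv.mul_apply, hs, hg] at h3
    exact hxx h3

theorem v_sub_neg (x : N) (g : N ≃ₐ[F] N) (hg : g x = -x) : D.v (g x - x) = D.v (2 * x) := by
  rw [hg, ← D.v.map_neg]
  congr 1
  ring

/-- Lower comparison. -/
theorem lower (θ : ℝ) (hθ : 0 < θ) (hmin : ∀ σ : N ≃ₐ[F] N, σ ≠ 1 → θ ≤ U.t σ)
    (x : N) (hx0 : x ≠ 0) (hx : D.v x ≤ 1)
    (hgen : ∀ y, D.v y ≤ 1 → (∀ s : N ≃ₐ[F] N, s x = x → s y = y) →
      ∀ σ : N ≃ₐ[F] N, D.v (σ y - y) ≤ D.v (σ x - x)) (g : N ≃ₐ[F] N) (hg : g x = -x) :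
    θ * U.dd (x ^ 2) ≤ D.v (2 * x) ^ 2 := by
  classical
  have hxx : -x ≠ x := by
    intro h
    have h1 : 2 * x = 0 := by linear_combination -h
    rcases mul_eq_zero.1 h1 with h2 | h2
    · exact two_ne D h2
    · exact hx0 h2
  obtain ⟨s₀, hs₀, hsmin⟩ := Finset.exists_min_image (St F x) (fun s => U.t (g * s))
    ⟨1, one_mem_St x⟩
  rw [mem_St] at hs₀
  set g' := g * s₀ with hg'
  have hgx : g' x = -x := by rw [hg', AlgEquiv.mul_apply, hs₀, hg]
  have hmin' : ∀ s ∈ St F x, U.t g' ≤ U.t (g' * s) := by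
    intro s hs
    have := hsmin (s₀ * s) (by rw [mem_St] at hs ⊢; rw [AlgEquiv.mul_apply, hs, hs₀])
    rw [hg', mul_assoc]
    exact this
  have hprod : ∏ s ∈ St F x, U.t (g' * s) ≤ D.v (2 * x) := by
    rw [← v_sub_neg x g' hgx]
    exact U.prod_le x hx hgen g'
  have h1 : θ * U.dd x ≤ ∏ s ∈ St F x, U.t (g' * s) := by
    unfold dd
    rw [← Finset.mul_prod_erase _ _ (one_mem_St x), mul_one]
    refine mul_le_mul ?_ ?_ (Finset.prod_nonneg fun s _ => U.t_nonneg s) (U.t_nonneg _)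
    · apply hmin
      intro h
      rw [h] at hgx
      exact hxx hgx.symm
    · refine Finset.prod_le_prod (fun s _ => U.t_nonneg s) fun s hs => ?_
      have hs' := Finset.mem_of_mem_erase hs
      have h2 : U.t s ≤ max (U.t g'⁻¹) (U.t (g' * s)) := by
        have := U.t_mul g'⁻¹ (g' * s)
        rwa [inv_mul_cancel_left] at this
      rw [U.t_inv] at h2
      exact h2.trans (max_le (hmin' s hs') le_rfl)
  rw [U.dd_sq x hx0 g' hgx, ← mul_assoc, sq]
  exact mul_le_mul (h1.trans hprod) hprod (Finset.prod_nonneg fun s _ => U.t_nonneg _)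
    (D.v.nonneg _)

include U in
/-- Comparison (A). -/
theorem compA [Nontrivial (N ≃ₐ[F] N)] (β x : N) (hβ : D.v β ≤ 1)
    (hcore : ∀ σ : N ≃ₐ[F] N, (∀ τ : N ≃ₐ[F] N, σ (τ β) = τ β) → σ = 1)
    (hc : ∀ σ : N ≃ₐ[F] N, σ β ≠ β → D.v (2 * β) ≤ D.v (σ β - β))
    (hx0 : x ≠ 0) (hx : D.v x ≤ 1)
    (hgen : ∀ y, D.v y ≤ 1 → (∀ s : N ≃ₐ[F] N, s x = x → s y = y) →
      ∀ σ : N ≃ₐ[F] N, D.v (σ y - y) ≤ D.v (σ x - x)) (g : N ≃ₐ[F] N) (hg : g x = -x)
    (hst : ∀ σ : N ≃ₐ[F] N, σ β = β ↔ σ (x ^ 2) = x ^ 2) :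
    D.v (2 * β) ≤ D.v (2 * x) ^ 2 := by
  obtain ⟨θ, hθ, hmin, hw⟩ := U.exists_theta
  have h1 := U.upper θ hmin hw β hβ hcore _ hc
  have h2 := U.lower θ hθ hmin x hx0 hx hgen g hg
  have h3 : U.dd β = U.dd (x ^ 2) := by
    unfold dd
    congr 2
    ext σ
    rw [mem_St, mem_St]
    exact hst σ
  rw [h3] at h1
  exact h1.trans h2

include U in
/-- Comparison (B). -/
theorem compB [Nontrivial (N ≃ₐ[F] N)] (β x : N) (hβ : D.v β ≤ 1) (hβ0 : β ≠ 0)
    (hcore : ∀ σ : N ≃ₐ[F] N, (∀ τ : N ≃ₐ[F] N, σ (τ β) = τ β) → σ = 1)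
    (hc : ∀ σ : N ≃ₐ[F] N, σ β ≠ β → D.v (2 * β) ≤ D.v (σ β - β))
    (g₁ : N ≃ₐ[F] N) (hg₁ : g₁ β = -β)
    (hx0 : x ≠ 0) (hx : D.v x ≤ 1)
    (hgen : ∀ y, D.v y ≤ 1 → (∀ s : N ≃ₐ[F] N, s x = x → s y = y) →
      ∀ σ : N ≃ₐ[F] N, D.v (σ y - y) ≤ D.v (σ x - x)) (g : N ≃ₐ[F] N) (hg : g x = -x)
    (hst : ∀ σ : N ≃ₐ[F] N, σ (β ^ 2) = β ^ 2 ↔ σ (x ^ 2) = x ^ 2) :
    D.v (2 * β) ^ 2 ≤ D.v (2 * x) ^ 2 := by
  obtain ⟨θ, hθ, hmin, hw⟩ := U.exists_theta
  have h1 := U.upper θ hmin hw β hβ hcore _ hc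
  have h2 := U.lower θ hθ hmin x hx0 hx hgen g hg
  have h3 : U.dd (β ^ 2) = U.dd (x ^ 2) := by
    unfold dd
    congr 2
    ext σ
    rw [mem_St, mem_St]
    exact hst σ
  have h4 : D.v (2 * β) ≤ ∏ s ∈ St F β, U.t (g₁ * s) := by
    rw [← v_sub_neg β g₁ hg₁]
    exact U.le_prod β hβ g₁
  rw [← h3, U.dd_sq β hβ0 g₁ hg₁, ← mul_assoc] at h2
  refine le_trans ?_ h2
  rw [sq]
  exact mul_le_mul h1 h4 (D.v.nonneg _) (mul_nonneg hθ.le (U.dd_nonneg _))

end Unif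

end RamData

end Pool.Agent.R369.Bas
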