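import Mathlib
import Pool.Agent.R369.Bas.Ram4

/-!
Totally ramified elements: an element `x` with `|x + s| ^ M = 1 / 2` has degree at least `M`.
-/

namespace Pool.Agent.R369.Bas

open Polynomial

set_option linter.unusedSectionVars false

namespace RamData

variable {F N : Type*} [Field F] [Field N] [Algebra F N] (D : RamData F N)

theorem na_sum_lt {ι : Type*} (s : Finset ι) (f : ι → N) (B : ℝ) (hB : 0 < B)
    (h : ∀ i ∈ s, D.v (f i) < B) : D.v (∑ i ∈ s, f i) < B := by
  classical
  induction s using Finset.induction_on with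
  | empty => simpa using hB
  | insert a s ha ih =>
    rw [Finset.sum_insert ha]
    exact (D.na _ _).trans_lt (max_lt (h a (Finset.mem_insert_self a s)) (ih fun i hi =>
      h i (Finset.mem_insert_of_mem hi)))

theorem terms_ne (x : N) (M : ℕ) (hx : D.v x ^ M = 1 / 2) (a b : F) (ha : a ≠ 0) (hb : b ≠ 0)
    (i j : ℕ) (hi : i < M) (hj : j < M) (hij : i ≠ j) :
    D.v (algebraMap F N a) * D.v x ^ i ≠ D.v (algebraMap F N b) * D.v x ^ j := by
  intro h
  obtain ⟨k, hk⟩ := D.valF a ha
  obtain ⟨l, hl⟩ := D.valF b hb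
  rw [hk, hl] at h
  have h1 := congrArg (fun y => y ^ M) h
  simp only [mul_pow] at h1
  rw [← pow_mul, ← pow_mul, mul_comm i M, mul_comm j M, pow_mul, pow_mul, hx] at h1
  have h2 : ∀ (n : ℤ) (e : ℕ), ((2 : ℝ) ^ n) ^ M * (1 / 2) ^ e = (2 : ℝ) ^ (n * M - e) := by
    intro n e
    rw [zpow_sub₀ two_ne_zero, zpow_mul, zpow_natCast, zpow_natCast, one_div, inv_pow,
      div_eq_mul_inv]
  rw [h2, h2] at h1
  have h3 : k * (M : ℤ) - i = l * M - j := zpow_right_injective₀ (by norm_num) (by norm_num) h1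
  have h4 : ((i : ℤ) - j) = (k - l) * M := by linarith
  apply hij
  by_contra hne
  have h5 : (M : ℤ) ∣ (i : ℤ) - j := ⟨k - l, by rw [h4]; ring⟩
  have h6 : ((i : ℤ) - j) = 0 := by
    apply Int.eq_zero_of_abs_lt_dvd h5
    rw [abs_lt]
    constructor <;> omega
  omega

theorem v_pos_of_pow (x : N) (M : ℕ) (hM : 0 < M) (hx : D.v x ^ M = 1 / 2) : 0 < D.v x := by
  rcases (D.v.nonneg x).lt_or_eq with h | h
  · exact h
  · rw [← h, zero_pow hM.ne'] at hx
    norm_num at hx

theorem v_lt_one_of_pow (x : N) (M : ℕ) (hx : D.v x ^ M = 1 / 2) : D.v x < 1 := by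
  by_contra h
  push Not at h
  have := one_le_pow₀ (n := M) h
  rw [hx] at this
  norm_num at this

/-- Each term of a polynomial of small degree is bounded by the value. -/
theorem le_aeval (x : N) (M : ℕ) (hx : D.v x ^ M = 1 / 2) (c : F[X]) (hc : c.natDegree < M)
    (i : ℕ) : D.v (algebraMap F N (c.coeff i)) * D.v x ^ i ≤ D.v (aeval x c) := by
  classical
  by_cases hi : i ∈ c.support
  swap
  · rw [notMem_support_iff.1 hi]
    simp
  have hM : 0 < M := by omega
  have hpos := D.v_pos_of_pow x M hM hx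
  set w : ℕ → ℝ := fun i => D.v (algebraMap F N (c.coeff i)) * D.v x ^ i with hw
  obtain ⟨i₀, hi₀, hmax⟩ := Finset.exists_max_image c.support w ⟨i, hi⟩
  have hsum : aeval x c = ∑ j ∈ c.support, algebraMap F N (c.coeff j) * x ^ j := by
    rw [aeval_def, eval₂_eq_sum, Polynomial.sum]
  rw [← Finset.add_sum_erase _ _ hi₀] at hsum
  have hvt : ∀ j, D.v (algebraMap F N (c.coeff j) * x ^ j) = w j := by
    intro j
    rw [D.v.map_mul, D.v.map_pow]
  have hwpos : 0 < w i₀ := by
    apply mul_pos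
    · apply D.v.pos
      rw [Ne, map_eq_zero]
      exact mem_support_iff.1 hi₀
    · positivity
  have hlt : D.v (∑ j ∈ c.support.erase i₀, algebraMap F N (c.coeff j) * x ^ j) < w i₀ := by
    apply D.na_sum_lt _ _ _ hwpos
    intro j hj
    rw [Finset.mem_erase] at hj
    rw [hvt]
    apply lt_of_le_of_ne (hmax j hj.2)
    have hj' := le_natDegree_of_mem_supp j hj.2
    have hi' := le_natDegree_of_mem_supp i₀ hi₀
    exact D.terms_ne x M hx _ _ (mem_support_iff.1 hj.2) (mem_support_iff.1 hi₀) j i₀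
      (by omega) (by omega) hj.1
  have h1 : D.v (aeval x c) = w i₀ := by
    rw [hsum, D.na_eq _ _ (by rw [hvt]; exact hlt), hvt]
  rw [h1]
  exact hmax i hi

theorem indep (x : N) (M : ℕ) (hx : D.v x ^ M = 1 / 2) (c : F[X]) (hc : c.natDegree < M)
    (h0 : aeval x c = 0) : c = 0 := by
  ext i
  have hM : 0 < M := by omega
  have hpos := D.v_pos_of_pow x M hM hx
  have h1 := D.le_aeval x M hx c hc i
  rw [h0, D.v.map_zero] at h1
  have h2 : D.v (algebraMap F N (c.coeff i)) = 0 := by
    have h3 : 0 ≤ D.v (algebraMap F N (c.coeff i)) := D.v.nonneg _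
    have h4 : 0 < D.v x ^ i := by positivity
    nlinarith
  have h3 := (D.v.eq_zero).1 h2
  rw [map_eq_zero] at h3
  rw [h3, coeff_zero]

theorem comp_shift (c : F[X]) (s : F) : (c.comp (X - C s)).comp (X + C s) = c := by
  rw [comp_assoc]
  simp

theorem natDegree_shift (c : F[X]) (s : F) : (c.comp (X - C s)).natDegree = c.natDegree := by
  rw [natDegree_comp, natDegree_X_sub_C, mul_one]

theorem aeval_shift (c : F[X]) (s : F) (x : N) :
    aeval (x + algebraMap F N s) (c.comp (X - C s)) = aeval x c := by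
  rw [aeval_comp]
  simp

theorem indep' (x : N) (s : F) (M : ℕ) (hx : D.v (x + algebraMap F N s) ^ M = 1 / 2) (c : F[X])
    (hc : c.natDegree < M) (h0 : aeval x c = 0) : c = 0 := by
  have h1 := D.indep (x + algebraMap F N s) M hx (c.comp (X - C s))
    (by rw [natDegree_shift]; exact hc) (by rw [aeval_shift]; exact h0)
  rw [← comp_shift c s, h1, zero_comp]

theorem minpoly_eq (x : N) (s : F) (M : ℕ) (hx : D.v (x + algebraMap F N s) ^ M = 1 / 2)
    (Q : F[X]) (hQ : Q.Monic) (hQd : Q.natDegree = M) (hQx : aeval x Q = 0) :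
    Q = minpoly F x := by
  apply minpoly.unique F x hQ hQx
  intro q hq hqx
  by_contra h
  push Not at h
  have h1 : q.natDegree < M := by
    rw [← hQd]
    exact natDegree_lt_natDegree hq.ne_zero h
  exact hq.ne_zero (D.indep' x s M hx q h1 hqx)

variable [FiniteDimensional F N] [IsGalois F N]

theorem exists_conj (x y : N) (s : F) (M : ℕ) (hx : D.v (x + algebraMap F N s) ^ M = 1 / 2)
    (Q : F[X]) (hQ : Q.Monic) (hQd : Q.natDegree = M) (hQx : aeval x Q = 0)
    (hQy : aeval y Q = 0) : ∃ σ : N ≃ₐ[F] N, σ x = y := by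
  have h := D.minpoly_eq x s M hx Q hQ hQd hQx
  rw [h] at hQy
  exact minpoly.exists_algEquiv_of_root' (Algebra.IsAlgebraic.isAlgebraic x) hQy

theorem int_of_le (x : N) (M : ℕ) (hx : D.v x ^ M = 1 / 2) (c : F[X]) (hc : c.natDegree < M)
    (h : D.v (aeval x c) ≤ 1) : D.Int' c := by
  intro i
  by_cases hi : c.coeff i = 0
  · rw [hi]
    simp
  have hiM : i < M := lt_of_le_of_lt (le_natDegree_of_ne_zero hi) hc
  obtain ⟨k, hk⟩ := D.valF _ hi
  have h1 := (D.le_aeval x M hx c hc i).trans h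
  have hM : 0 < M := by omega
  have hpos := D.v_pos_of_pow x M hM hx
  have hlt := D.v_lt_one_of_pow x M hx
  have h2 : 1 / 2 < D.v x ^ i := by
    have h3 : D.v x ^ i * D.v x ^ (M - i) = 1 / 2 := by
      rw [← pow_add, ← hx]
      congr 1
      omega
    have h4 : D.v x ^ (M - i) < 1 := pow_lt_one₀ hpos.le hlt (by omega)
    have h5 : 0 < D.v x ^ i := by positivity
    nlinarith
  rw [hk] at h1 ⊢
  have h3 : (2 : ℝ) ^ k < 2 ^ (1 : ℤ) := by
    have h4 : 0 < (2 : ℝ) ^ k := by positivity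
    rw [zpow_one]
    nlinarith
  have h4 : k < 1 := (zpow_lt_zpow_iff_right₀ (by norm_num)).1 h3
  exact zpow_le_one_of_nonpos₀ (by norm_num) (by omega)

theorem lip (x : N) (s : F) (M : ℕ) (hM : 0 < M)
    (hx : D.v (x + algebraMap F N s) ^ M = 1 / 2)
    (Q : F[X]) (hQ : Q.Monic) (hQd : Q.natDegree = M) (hQx : aeval x Q = 0)
    (y : N) (hy : D.v y ≤ 1) (hfix : ∀ σ : N ≃ₐ[F] N, σ x = x → σ y = y) (σ : N ≃ₐ[F] N) :
    D.v (σ y - y) ≤ D.v (σ x - x) := by
  have hmem : y ∈ IntermediateField.adjoin F {x} := by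
    rw [← IsGalois.fixedField_fixingSubgroup (IntermediateField.adjoin F {x}),
      IntermediateField.mem_fixedField_iff]
    intro τ hτ
    apply hfix
    rw [IntermediateField.mem_fixingSubgroup_iff] at hτ
    exact hτ x (IntermediateField.mem_adjoin_simple_self F x)
  have hx' : IsIntegral F x := Algebra.IsIntegral.isIntegral x
  rw [← IntermediateField.mem_toSubalgebra,
    IntermediateField.adjoin_simple_toSubalgebra_of_isAlgebraic hx'.isAlgebraic,
    Algebra.adjoin_singleton_eq_range_aeval] at hmem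
  obtain ⟨p, hp⟩ := hmem
  have hp' : aeval x p = y := hp
  set z := x + algebraMap F N s with hz
  set Q' := Q.comp (X - C s) with hQ'
  have hQ'm : Q'.Monic := hQ.comp (monic_X_sub_C s) (by rw [natDegree_X_sub_C]; norm_num)
  have hQ'd : Q'.natDegree = M := by rw [hQ', natDegree_shift, hQd]
  have hQ'z : aeval z Q' = 0 := by rw [hQ', hz, aeval_shift, hQx]
  set r := (p.comp (X - C s)) %ₘ Q' with hr
  have hrz : aeval z r = y := by
    rw [hr, aeval_modByMonic_eq_self_of_root hQ'z, hz, aeval_shift, hp']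
  have hrd : r.natDegree < M := by
    have := natDegree_modByMonic_lt (p.comp (X - C s)) hQ'm (by
      intro h
      rw [h, natDegree_one] at hQ'd
      omega)
    rwa [hQ'd] at this
  have hri : D.Int' r := D.int_of_le z M hx r hrd (by rw [hrz]; exact hy)
  have hz1 : D.v z ≤ 1 := (D.v_lt_one_of_pow z M hx).le
  have h1 : σ y = aeval (σ z) r := by
    rw [Polynomial.aeval_algHom_apply σ z r, hrz]
  have h2 : σ x - x = σ z - z := by
    rw [hz, map_add, AlgEquiv.commutes]
    ring
  rw [h1, h2]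
  conv_lhs => rw [← hrz]
  exact D.int_aeval_sub r hri _ _ (by rw [D.inv]; exact hz1) hz1

end RamData

end Pool.Agent.R369.Bas
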