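import Mathlib
import Pool.Agent.R369.Bas.Ram5

/-!
The iterates of `x ^ 2 - 1` and the preimages of `1`: values, distances, and the two local
non-squareness statements.
-/

namespace Pool.Agent.R369.Bas

open Polynomial

set_option linter.unusedSectionVars false

/-- The `m`-th iterate of `x ^ 2 - 1`. -/
def fI {R : Type*} [CommRing R] (m : ℕ) (x : R) : R := (fun y => y ^ 2 - 1)^[m] x

theorem fI_zero {R : Type*} [CommRing R] (x : R) : fI 0 x = x := rfl

theorem fI_succ {R : Type*} [CommRing R] (m : ℕ) (x : R) : fI (m + 1) x = fI m (x ^ 2 - 1) := by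
  unfold fI
  rw [Function.iterate_succ_apply]

theorem fI_succ' {R : Type*} [CommRing R] (m : ℕ) (x : R) : fI (m + 1) x = (fI m x) ^ 2 - 1 := by
  unfold fI
  rw [Function.iterate_succ_apply']

theorem fI_neg {R : Type*} [CommRing R] (m : ℕ) (hm : 1 ≤ m) (x : R) : fI m (-x) = fI m x := by
  obtain ⟨k, rfl⟩ : ∃ k, m = k + 1 := ⟨m - 1, by omega⟩
  rw [fI_succ, fI_succ, neg_sq]

theorem fI_map {R S : Type*} [CommRing R] [CommRing S] {E : Type*} [FunLike E R S]
    [RingHomClass E R S] (φ : E) (m : ℕ) (x : R) : fI m (φ x) = φ (fI m x) := by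
  induction m with
  | zero => rfl
  | succ m ih => rw [fI_succ', fI_succ', ih, map_sub, map_pow, map_one]

/-- The polynomial of the `m`-th iterate. -/
noncomputable def fP (R : Type*) [CommRing R] (m : ℕ) : R[X] := (X ^ 2 - 1 : R[X]).comp^[m] X

theorem fP_zero (R : Type*) [CommRing R] : fP R 0 = X := rfl

theorem fP_succ (R : Type*) [CommRing R] (m : ℕ) : fP R (m + 1) = (fP R m) ^ 2 - 1 := by
  unfold fP
  rw [Function.iterate_succ_apply']
  simp

theorem fP_monic_natDegree (R : Type*) [CommRing R] [Nontrivial R] (m : ℕ) :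
    (fP R m).Monic ∧ (fP R m).natDegree = 2 ^ m := by
  induction m with
  | zero => exact ⟨monic_X, natDegree_X⟩
  | succ m ih =>
    obtain ⟨h1, h2⟩ := ih
    have h3 : ((fP R m) ^ 2).Monic := h1.pow 2
    have h4 : ((fP R m) ^ 2).natDegree = 2 ^ (m + 1) := by
      rw [h1.natDegree_pow, h2, pow_succ, mul_comm]
    have h5 : (1 : R[X]).degree < ((fP R m) ^ 2).degree := by
      rw [degree_eq_natDegree h3.ne_zero, h4, degree_one]
      exact_mod_cast Nat.pos_of_ne_zero (by positivity)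
    rw [fP_succ]
    refine ⟨h3.sub_of_left h5, ?_⟩
    rw [natDegree_sub_eq_left_of_natDegree_lt, h4]
    rw [h4, natDegree_one]
    positivity

theorem aeval_fP {R S : Type*} [CommRing R] [CommRing S] [Algebra R S] (m : ℕ) (x : S) :
    aeval x (fP R m) = fI m x := by
  induction m with
  | zero => simp [fP_zero, fI_zero]
  | succ m ih => rw [fP_succ, fI_succ', map_sub, map_pow, ih, map_one]

/-- The polynomial `f^m - 1`. -/
noncomputable def gP (R : Type*) [CommRing R] (m : ℕ) : R[X] := fP R m - 1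

theorem gP_monic_natDegree (R : Type*) [CommRing R] [Nontrivial R] (m : ℕ) :
    (gP R m).Monic ∧ (gP R m).natDegree = 2 ^ m := by
  obtain ⟨h1, h2⟩ := fP_monic_natDegree R m
  have h5 : (1 : R[X]).degree < (fP R m).degree := by
    rw [degree_eq_natDegree h1.ne_zero, h2, degree_one]
    exact_mod_cast Nat.pos_of_ne_zero (by positivity)
  unfold gP
  refine ⟨h1.sub_of_left h5, ?_⟩
  rw [natDegree_sub_eq_left_of_natDegree_lt, h2]
  rw [h2, natDegree_one]
  positivity

theorem aeval_gP {R S : Type*} [CommRing R] [CommRing S] [Algebra R S] (m : ℕ) (x : S) :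
    aeval x (gP R m) = fI m x - 1 := by
  unfold gP
  rw [map_sub, aeval_fP, map_one]

namespace RamData

variable {F N : Type*} [Field F] [Field N] [Algebra F N] (D : RamData F N)

/-- Values of the preimages of `1`. -/
theorem val_root (j : ℕ) : ∀ x : N, fI j x = 1 →
    (Even j → D.v (x + 1) ^ (2 ^ j) = 1 / 2) ∧ (¬ Even j → D.v x ^ (2 ^ j) = 1 / 2) := by
  induction j with
  | zero =>
    intro x hx
    rw [fI_zero] at hx
    subst hx
    refine ⟨fun _ => ?_, fun h => absurd (Even.zero) h⟩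
    rw [one_add_one_eq_two, D.v2]
    norm_num
  | succ j ih =>
    intro x hx
    rw [fI_succ] at hx
    obtain ⟨ih1, ih2⟩ := ih _ hx
    constructor
    · intro hj
      have hj' : ¬ Even j := by
        intro h
        exact (Nat.even_add_one.1 hj) h
      have hj1 : 1 ≤ j := by
        by_contra h
        have : j = 0 := by omega
        exact hj' (this ▸ Even.zero)
      have h1 := ih2 hj'
      have h2 : x ^ 2 - 1 = (x + 1) * (x - 1) := by ring
      rw [h2, D.v.map_mul] at h1
      have h3 : D.v (x + 1) = D.v (x - 1) := by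
        by_contra hne
        have h4 : max (D.v (x + 1)) (D.v (x - 1)) ≤ 1 / 2 := by
          rcases lt_or_gt_of_ne hne with hlt | hlt
          · have h5 : D.v ((x - 1) + -(x + 1)) = D.v (x - 1) :=
              D.na_eq _ _ (by rw [D.v.map_neg]; exact hlt)
            have h6 : (x - 1) + -(x + 1) = -2 := by ring
            rw [h6, D.v.map_neg, D.v2] at h5
            rw [max_eq_right hlt.le, ← h5]
          · have h5 : D.v ((x + 1) + -(x - 1)) = D.v (x + 1) :=
              D.na_eq _ _ (by rw [D.v.map_neg]; exact hlt)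
            have h6 : (x + 1) + -(x - 1) = 2 := by ring
            rw [h6, D.v2] at h5
            rw [max_eq_left hlt.le, ← h5]
        have h5 : D.v (x + 1) ≤ 1 / 2 := (le_max_left _ _).trans h4
        have h6 : D.v (x - 1) ≤ 1 / 2 := (le_max_right _ _).trans h4
        have h7 : D.v (x + 1) * D.v (x - 1) ≤ 1 / 4 := by
          have := mul_le_mul h5 h6 (D.v.nonneg _) (by norm_num : (0 : ℝ) ≤ 1 / 2)
          linarith
        have h8 : (D.v (x + 1) * D.v (x - 1)) ^ (2 ^ j) ≤ (1 / 4) ^ (2 ^ j) :=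
          pow_le_pow_left₀ (mul_nonneg (D.v.nonneg _) (D.v.nonneg _)) h7 _
        have h9 : (1 / 4 : ℝ) ^ (2 ^ j) ≤ (1 / 4) ^ 1 :=
          pow_le_pow_of_le_one (by norm_num) (by norm_num) (Nat.one_le_two_pow)
        rw [h1] at h8
        norm_num at h8 h9
        linarith
      rw [← h3, ← sq, ← pow_mul] at h1
      rw [pow_succ, mul_comm]
      exact h1
    · intro hj
      have hj' : Even j := by
        by_contra h
        exact hj (Nat.even_add_one.2 h)
      have h1 := ih1 hj'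
      rw [sub_add_cancel, D.v.map_pow, ← pow_mul] at h1
      rw [pow_succ, mul_comm]
      exact h1

/-- The shift used at level `j`. -/
def sc (F : Type*) [Field F] (j : ℕ) : F := if Even j then 1 else 0

theorem val_sc (j : ℕ) (x : N) (hx : fI j x = 1) :
    D.v (x + algebraMap F N (sc F j)) ^ (2 ^ j) = 1 / 2 := by
  obtain ⟨h1, h2⟩ := D.val_root j x hx
  unfold sc
  split_ifs with h
  · rw [map_one]
    exact h1 h
  · rw [map_zero, add_zero]
    exact h2 h

theorem v_even (j : ℕ) (hj : Even j) (x : N) (hx : fI j x = 1) : D.v x = 1 := by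
  have h1 := (D.val_root j x hx).1 hj
  have h2 := D.v_lt_one_of_pow _ _ h1
  have h3 : D.v (-1 + (x + 1)) = D.v (-1) := by
    apply D.na_eq
    rw [D.v.map_neg, D.v.map_one]
    exact h2
  rw [D.v.map_neg, D.v.map_one] at h3
  rw [← h3]
  congr 1
  ring

theorem v_le (j : ℕ) (x : N) (hx : fI j x = 1) : D.v x ≤ 1 := by
  by_cases hj : Even j
  · exact (D.v_even j hj x hx).le
  · exact (D.v_lt_one_of_pow _ _ ((D.val_root j x hx).2 hj)).le

theorem v_gt (j : ℕ) (hj1 : 1 ≤ j) (x : N) (hx : fI j x = 1) : 1 / 2 < D.v x := by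
  by_cases hj : Even j
  · rw [D.v_even j hj x hx]
    norm_num
  · have h1 := (D.val_root j x hx).2 hj
    by_contra h
    push Not at h
    have h2 : D.v x ^ (2 ^ j) ≤ (1 / 2) ^ (2 ^ j) := pow_le_pow_left₀ (D.v.nonneg _) h _
    have h3 : (1 / 2 : ℝ) ^ (2 ^ j) ≤ (1 / 2) ^ 2 := by
      apply pow_le_pow_of_le_one (by norm_num) (by norm_num)
      calc 2 = 2 ^ 1 := by norm_num
        _ ≤ 2 ^ j := Nat.pow_le_pow_right (by norm_num) hj1
    rw [h1] at h2
    norm_num at h2 h3
    linarith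

/-- Minimal distance between distinct preimages of level `m`. -/
theorem dist (m : ℕ) : ∀ x y : N, fI m x = 1 → fI m y = 1 → x ≠ y →
    D.v (2 * x) ≤ D.v (x - y) := by
  induction m with
  | zero =>
    intro x y hx hy hxy
    rw [fI_zero] at hx hy
    exact absurd (hx.trans hy.symm) hxy
  | succ m ih =>
    intro x y hx hy hxy
    rw [fI_succ] at hx hy
    by_cases hab : x ^ 2 - 1 = y ^ 2 - 1
    · have h1 : x ^ 2 = y ^ 2 := by linear_combination hab
      rcases sq_eq_sq_iff_eq_or_eq_neg.1 h1 with h2 | h2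
      · exact absurd h2 hxy
      · have h3 : y = -x := by rw [h2]; ring
        rw [h3]
        have h4 : x - -x = 2 * x := by ring
        rw [h4]
    · have hm : 1 ≤ m := by
        by_contra h
        have h0 : m = 0 := by omega
        subst h0
        rw [fI_zero] at hx hy
        exact hab (hx.trans hy.symm)
      have h1 := ih _ _ hx hy hab
      have h2 := D.v_gt m hm _ hx
      rw [D.v.map_mul, D.v2] at h1
      have h3 : x ^ 2 - 1 - (y ^ 2 - 1) = (x - y) * (x + y) := by ring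
      rw [h3, D.v.map_mul] at h1
      by_contra hlt
      push Not at hlt
      have h4 : D.v x ≤ 1 := by
        have : fI (m + 1) x = 1 := by rw [fI_succ]; exact hx
        exact D.v_le _ _ this
      have h5 : D.v (2 * x) ≤ 1 / 2 := by
        rw [D.v.map_mul, D.v2]
        linarith
      have h6 : D.v (x + y) ≤ 1 / 2 := by
        have h7 : x + y = 2 * x - (x - y) := by ring
        rw [h7]
        exact (D.na_sub _ _).trans (max_le h5 (hlt.le.trans h5))
      have h7 : D.v (x - y) ≤ 1 / 2 := hlt.le.trans h5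
      have h8 : D.v (x - y) * D.v (x + y) ≤ 1 / 2 * (1 / 2) :=
        mul_le_mul h7 h6 (D.v.nonneg _) (by norm_num)
      linarith

variable [FiniteDimensional F N] [IsGalois F N]

include D

theorem conj_root (m : ℕ) (x y : N) (hx : fI m x = 1) (hy : fI m y = 1) :
    ∃ σ : N ≃ₐ[F] N, σ x = y := by
  obtain ⟨h1, h2⟩ := gP_monic_natDegree F m
  refine D.exists_conj x y (sc F m) (2 ^ m) (D.val_sc m x hx) (gP F m) h1 h2 ?_ ?_
  · rw [aeval_gP, hx, sub_self]
  · rw [aeval_gP, hy, sub_self]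

theorem root_ne_zero (j : ℕ) (hj : 1 ≤ j) (x : N) (hx : fI j x = 1) : x ≠ 0 := by
  rintro rfl
  have := D.v_gt j hj 0 hx
  rw [D.v.map_zero] at this
  norm_num at this

theorem neg_ne (x : N) (hx : x ≠ 0) : -x ≠ x := by
  intro h
  have h1 : 2 * x = 0 := by linear_combination -h
  rcases mul_eq_zero.1 h1 with h2 | h2
  · exact Unif.two_ne D h2
  · exact hx h2

/-- Statement (A): for `β` at level `m ≥ 1`, `1 + β` is not a square in the field generated by the
preimages of level `m`. -/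
theorem locA (m : ℕ) (hm : 1 ≤ m)
    (hN : ∀ σ : N ≃ₐ[F] N, (∀ x, fI m x = 1 → σ x = x) → σ = 1)
    (β x : N) (hβ : fI m β = 1) (hx : x ^ 2 = 1 + β) : False := by
  have hβn : fI m (-β) = 1 := by rw [fI_neg m hm, hβ]
  obtain ⟨g₁, hg₁⟩ := D.conj_root m β (-β) hβ hβn
  have hβ0 := D.root_ne_zero m hm β hβ
  have : Nontrivial (N ≃ₐ[F] N) := by
    refine ⟨⟨g₁, 1, ?_⟩⟩
    rintro rfl
    exact D.neg_ne β hβ0 hg₁.symm
  obtain ⟨U⟩ := D.exists_unif'
  have hx1 : fI (m + 1) x = 1 := by
    rw [fI_succ, hx]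
    have : 1 + β - 1 = β := by ring
    rw [this, hβ]
  have hxn : fI (m + 1) (-x) = 1 := by rw [fI_neg _ (by omega), hx1]
  have hx0 := D.root_ne_zero (m + 1) (by omega) x hx1
  obtain ⟨g, hg⟩ := D.conj_root (m + 1) x (-x) hx1 hxn
  obtain ⟨hQ1, hQ2⟩ := gP_monic_natDegree F (m + 1)
  have key := U.compA β x (D.v_le m β hβ) ?_ ?_ hx0 (D.v_le _ x hx1) ?_ g hg ?_
  · have h1 := D.v_gt m hm β hβ
    have h2 := D.v_le _ x hx1
    have h3 := D.v.nonneg x
    rw [D.v.map_mul, D.v.map_mul, D.v2] at key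
    nlinarith
  · intro σ hσ
    apply hN
    intro y hy
    obtain ⟨τ, hτ⟩ := D.conj_root m β y hβ hy
    rw [← hτ]
    exact hσ τ
  · intro σ hσ
    have h1 : fI m (σ β) = 1 := by rw [fI_map, hβ, map_one]
    have h2 := D.dist m β (σ β) hβ h1 (Ne.symm hσ)
    rwa [← D.v.map_neg (β - σ β), neg_sub] at h2
  · intro y hy hfix σ
    exact D.lip x (sc F (m + 1)) (2 ^ (m + 1)) (by positivity) (D.val_sc (m + 1) x hx1)
      (gP F (m + 1)) hQ1 hQ2 (by rw [aeval_gP, hx1, sub_self]) y hy hfix σ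
  · intro σ
    rw [hx, map_add, map_one]
    exact (add_right_inj 1).symm

/-- Statement (B): for `γ` at an odd level `k`, `-γ` is not a square in the field generated by the
preimages of level `k + 1`. -/
theorem locB (k : ℕ) (hk : ¬ Even k)
    (hN : ∀ σ : N ≃ₐ[F] N, (∀ x, fI (k + 1) x = 1 → σ x = x) → σ = 1)
    (γ β x : N) (hγ : fI k γ = 1) (hβγ : β ^ 2 = 1 + γ) (hx : x ^ 2 = -γ) : False := by
  have hk1 : 1 ≤ k := by
    by_contra h
    have : k = 0 := by omega
    exact hk (this ▸ Even.zero)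
  have hβ : fI (k + 1) β = 1 := by
    rw [fI_succ, hβγ]
    have : 1 + γ - 1 = γ := by ring
    rw [this, hγ]
  have hβn : fI (k + 1) (-β) = 1 := by rw [fI_neg _ (by omega), hβ]
  obtain ⟨g₁, hg₁⟩ := D.conj_root (k + 1) β (-β) hβ hβn
  have hβ0 := D.root_ne_zero (k + 1) (by omega) β hβ
  have : Nontrivial (N ≃ₐ[F] N) := by
    refine ⟨⟨g₁, 1, ?_⟩⟩
    rintro rfl
    exact D.neg_ne β hβ0 hg₁.symm
  obtain ⟨U⟩ := D.exists_unif'
  have hγ0 := D.root_ne_zero k hk1 γ hγ
  have hx0 : x ≠ 0 := by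
    rintro rfl
    apply hγ0
    have : (0 : N) ^ 2 = 0 := by ring
    rw [this] at hx
    linear_combination hx
  have hvγ := (D.val_root k γ hγ).2 hk
  have hvx : D.v x ^ (2 ^ (k + 1)) = 1 / 2 := by
    rw [pow_succ, mul_comm, pow_mul, ← D.v.map_pow x 2, hx, D.v.map_neg, hvγ]
  have hvx1 : D.v x < 1 := D.v_lt_one_of_pow _ _ hvx
  -- the polynomial of `x`
  obtain ⟨hP1, hP2⟩ := gP_monic_natDegree F k
  set Q : F[X] := (gP F k).comp (-X ^ 2) with hQ
  have hdeg2 : (-X ^ 2 : F[X]).natDegree = 2 := by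
    rw [natDegree_neg, natDegree_X_pow]
  have hQd : Q.natDegree = 2 ^ (k + 1) := by
    rw [hQ, natDegree_comp, hP2, hdeg2, pow_succ]
  have hQm : Q.Monic := by
    rw [Monic, hQ, leadingCoeff_comp (by rw [hdeg2]; norm_num), hP1.leadingCoeff, hP2,
      leadingCoeff_neg, leadingCoeff_X_pow, one_mul]
    obtain ⟨j, rfl⟩ : ∃ j, k = j + 1 := ⟨k - 1, by omega⟩
    rw [pow_succ, mul_comm, pow_mul]
    norm_num
  have hQe : ∀ y : N, aeval y Q = fI k (-y ^ 2) - 1 := by
    intro y
    rw [hQ, aeval_comp, aeval_gP]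
    simp
  have hQx : aeval x Q = 0 := by
    rw [hQe, hx, neg_neg, hγ, sub_self]
  have hQnx : aeval (-x) Q = 0 := by
    rw [hQe, neg_sq, hx, neg_neg, hγ, sub_self]
  have hvx' : D.v (x + algebraMap F N 0) ^ (2 ^ (k + 1)) = 1 / 2 := by
    rw [map_zero, add_zero, hvx]
  obtain ⟨g, hg⟩ := D.exists_conj x (-x) 0 (2 ^ (k + 1)) hvx' Q hQm hQd hQx hQnx
  have key := U.compB β x (D.v_le _ β hβ) hβ0 ?_ ?_ g₁ hg₁ hx0 hvx1.le ?_ g hg ?_
  · have h1 : D.v β = 1 := D.v_even (k + 1) (Nat.even_add_one.2 hk) β hβ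
    rw [D.v.map_mul, D.v.map_mul, D.v2, h1] at key
    have h3 := D.v.nonneg x
    nlinarith
  · intro σ hσ
    apply hN
    intro y hy
    obtain ⟨τ, hτ⟩ := D.conj_root (k + 1) β y hβ hy
    rw [← hτ]
    exact hσ τ
  · intro σ hσ
    have h1 : fI (k + 1) (σ β) = 1 := by rw [fI_map, hβ, map_one]
    have h2 := D.dist (k + 1) β (σ β) hβ h1 (Ne.symm hσ)
    rwa [← D.v.map_neg (β - σ β), neg_sub] at h2
  · intro y hy hfix σ
    exact D.lip x 0 (2 ^ (k + 1)) (by positivity) hvx' Q hQm hQd hQx y hy hfix σ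
  · intro σ
    rw [hx, hβγ, map_add, map_one, map_neg, neg_inj]
    exact add_right_inj 1

end RamData

end Pool.Agent.R369.Bas
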