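import Mathlib

/-!
A subfield of the algebraic closure of the 2-adic numbers which is maximal among those whose value
group is generated by 2.
-/

namespace Pool.Agent.R369.Bas

open Polynomial

/-- The algebraic closure of the 2-adic numbers. -/
abbrev Om : Type := PadicAlgCl 2

/-- Value group condition. -/
def Good (E : Subfield Om) : Prop :=
  (∀ x ∈ E, x ≠ 0 → ∃ k : ℤ, ‖x‖ = (2 : ℝ) ^ k) ∧ ∀ q : ℚ_[2], algebraMap ℚ_[2] Om q ∈ E

theorem norm_alg (q : ℚ_[2]) : ‖algebraMap ℚ_[2] Om q‖ = ‖q‖ := PadicAlgCl.norm_extends 2 q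

theorem good_base : Good (algebraMap ℚ_[2] Om).fieldRange := by
  refine ⟨?_, fun q => ⟨q, rfl⟩⟩
  rintro _ ⟨q, rfl⟩ hx
  have hq : q ≠ 0 := by
    rintro rfl
    exact hx (map_zero _)
  refine ⟨-q.valuation, ?_⟩
  rw [norm_alg, Padic.norm_eq_zpow_neg_valuation hq, Nat.cast_ofNat]

theorem exists_max : ∃ E : Subfield Om, Maximal Good E := by
  have hz : ∀ c ⊆ {E : Subfield Om | Good E}, IsChain (· ≤ ·) c → ∀ y ∈ c,
      ∃ ub ∈ {E : Subfield Om | Good E}, ∀ z ∈ c, z ≤ ub := by
    intro c hc hchain y hy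
    have hmem : ∀ x, x ∈ sSup c ↔ ∃ s ∈ c, x ∈ s := fun x =>
      Subfield.mem_sSup_of_directedOn ⟨y, hy⟩ hchain.directedOn
    refine ⟨sSup c, ⟨?_, ?_⟩, fun z hz => le_sSup hz⟩
    · intro x hx hx0
      obtain ⟨s, hs, hxs⟩ := (hmem x).1 hx
      exact (hc hs).1 x hxs hx0
    · intro q
      exact (hmem _).2 ⟨y, hy, (hc hy).2 q⟩
  obtain ⟨m, -, hm⟩ := zorn_le_nonempty₀ {E : Subfield Om | Good E} hz
    (algebraMap ℚ_[2] Om).fieldRange good_base
  exact ⟨m, hm⟩

theorem nsum_le {ι : Type*} (s : Finset ι) (f : ι → Om) (B : ℝ) (hB : 0 ≤ B)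
    (h : ∀ i ∈ s, ‖f i‖ ≤ B) : ‖∑ i ∈ s, f i‖ ≤ B := by
  classical
  induction s using Finset.induction_on with
  | empty => simpa using hB
  | insert a s ha ih =>
    rw [Finset.sum_insert ha]
    refine (IsUltrametricDist.norm_add_le_max _ _).trans (max_le (h a (Finset.mem_insert_self a s))
      (ih fun i hi => h i (Finset.mem_insert_of_mem hi)))

theorem nsum_lt {ι : Type*} (s : Finset ι) (f : ι → Om) (B : ℝ) (hB : 0 < B)
    (h : ∀ i ∈ s, ‖f i‖ < B) : ‖∑ i ∈ s, f i‖ < B := by
  classical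
  induction s using Finset.induction_on with
  | empty => simpa using hB
  | insert a s ha ih =>
    rw [Finset.sum_insert ha]
    exact (IsUltrametricDist.norm_add_le_max _ _).trans_lt (max_lt
      (h a (Finset.mem_insert_self a s)) (ih fun i hi => h i (Finset.mem_insert_of_mem hi)))

section

variable (E : Subfield Om)

/-- Integral coefficients. -/
def IntE (p : E[X]) : Prop := ∀ i, ‖(p.coeff i : Om)‖ ≤ 1

theorem pow_sub_le (x y : Om) (hx : ‖x‖ ≤ 1) (hy : ‖y‖ ≤ 1) (i : ℕ) :
    ‖x ^ i - y ^ i‖ ≤ ‖x - y‖ := by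
  induction i with
  | zero => simp
  | succ i ih =>
    have : x ^ (i + 1) - y ^ (i + 1) = x * (x ^ i - y ^ i) + (x - y) * y ^ i := by ring
    rw [this]
    refine (IsUltrametricDist.norm_add_le_max _ _).trans (max_le ?_ ?_)
    · rw [norm_mul]
      calc ‖x‖ * ‖x ^ i - y ^ i‖ ≤ 1 * ‖x - y‖ := mul_le_mul hx ih (norm_nonneg _) zero_le_one
        _ = _ := one_mul _
    · rw [norm_mul, norm_pow]
      calc ‖x - y‖ * ‖y‖ ^ i ≤ ‖x - y‖ * 1 :=
            mul_le_mul_of_nonneg_left (pow_le_one₀ (norm_nonneg _) hy) (norm_nonneg _)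
        _ = _ := mul_one _

theorem aeval_sub_le (p : E[X]) (hp : IntE E p) (x y : Om) (hx : ‖x‖ ≤ 1) (hy : ‖y‖ ≤ 1) :
    ‖aeval x p - aeval y p‖ ≤ ‖x - y‖ := by
  rw [aeval_eq_sum_range, aeval_eq_sum_range, ← Finset.sum_sub_distrib]
  refine nsum_le _ _ _ (norm_nonneg _) fun i _ => ?_
  rw [← smul_sub, Algebra.smul_def, norm_mul]
  calc _ ≤ 1 * ‖x - y‖ :=
        mul_le_mul (hp i) (pow_sub_le x y hx hy i) (norm_nonneg _) zero_le_one
    _ = _ := one_mul _

theorem aeval_le (p : E[X]) (hp : IntE E p) (x : Om) (hx : ‖x‖ ≤ 1) : ‖aeval x p‖ ≤ 1 := by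
  rw [aeval_eq_sum_range]
  refine nsum_le _ _ _ zero_le_one fun i _ => ?_
  rw [Algebra.smul_def, norm_mul, norm_pow]
  exact mul_le_one₀ (hp i) (by positivity) (pow_le_one₀ (norm_nonneg _) hx)

/-- The polynomials over `E` with small value at `x`. -/
def Sm (x : Om) (d : ℕ) : Prop :=
  1 ≤ d ∧ ∃ ψ : E[X], ψ.Monic ∧ ψ.natDegree = d ∧ IntE E ψ ∧ ‖aeval x ψ‖ < 1

variable {E}

theorem exists_Sm (hE : Good E) (x : Om) (hx : ‖x‖ ≤ 1) : ∃ d, Sm E x d := by
  set j : ℚ_[2] →+* E := (algebraMap ℚ_[2] Om).codRestrict E hE.2 with hj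
  have hxi : IsIntegral ℚ_[2] x := Algebra.IsIntegral.isIntegral x
  set ψ := minpoly ℚ_[2] x with hψ
  have hm : ψ.Monic := minpoly.monic hxi
  refine ⟨ψ.natDegree, minpoly.natDegree_pos hxi, ψ.map j, hm.map j, ?_, ?_, ?_⟩
  · exact hm.natDegree_map j
  · intro i
    rw [coeff_map]
    have h1 : ((j (ψ.coeff i) : E) : Om) = algebraMap ℚ_[2] Om (ψ.coeff i) := rfl
    rw [h1, norm_alg]
    have h2 : spectralValue ψ ≤ 1 := hx
    exact (spectralValue_le_one_iff hm).1 h2 i
  · have h1 : aeval x (ψ.map j) = aeval x ψ := by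
      rw [aeval_def, eval₂_map, aeval_def]
      rfl
    rw [h1, hψ, minpoly.aeval, norm_zero]
    exact one_pos

theorem exists_root_near (ψ : Om[X]) (hψ : ψ.Monic) (x : Om) (hx : ‖ψ.eval x‖ < 1) :
    ∃ y, ψ.eval y = 0 ∧ ‖x - y‖ < 1 := by
  by_contra hcon
  push Not at hcon
  have hs : ψ.Splits := IsAlgClosed.splits ψ
  have h1 : ψ = (ψ.roots.map fun a => X - C a).prod := by
    have := hs.eq_prod_roots_of_monic hψ
    exact this
  have h2 : ∀ s : Multiset Om, (∀ a ∈ s, 1 ≤ ‖x - a‖) →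
      1 ≤ ‖((s.map fun a => X - C a).prod).eval x‖ := by
    intro s
    induction s using Multiset.induction_on with
    | empty => intro _; simp
    | cons a s ih =>
      intro h
      rw [Multiset.map_cons, Multiset.prod_cons, eval_mul, norm_mul, eval_sub, eval_X, eval_C]
      have h3 := h a (Multiset.mem_cons_self a s)
      have h4 := ih fun b hb => h b (Multiset.mem_cons_of_mem hb)
      exact one_le_mul_of_one_le_of_one_le h3 h4
  have h3 := h2 ψ.roots (by
    intro a ha
    exact hcon a ((mem_roots hψ.ne_zero).1 ha))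
  rw [← h1] at h3
  linarith

/-- The residue polynomial argument. -/
theorem claim (x : Om) (hx : ‖x‖ ≤ 1) (d : ℕ) (hmin : ∀ e, Sm E x e → d ≤ e) (c : E[X])
    (hc : IntE E c) (hcd : c.natDegree < d) (i₀ : ℕ) (hi₀ : ‖(c.coeff i₀ : Om)‖ = 1) :
    ‖aeval x c‖ = 1 := by
  classical
  apply le_antisymm (aeval_le E c hc x hx)
  by_contra hlt
  push Not at hlt
  -- keep only the coefficients of norm one
  set T := c.support.filter fun i => ‖(c.coeff i : Om)‖ = 1 with hT
  set c' : E[X] := ∑ i ∈ T, monomial i (c.coeff i) with hc'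
  have hcoef : ∀ i, c'.coeff i = if i ∈ T then c.coeff i else 0 := by
    intro i
    rw [hc', finsetSum_coeff]
    simp only [coeff_monomial]
    rw [Finset.sum_ite_eq' T i]
  have hi₀T : i₀ ∈ T := by
    rw [hT, Finset.mem_filter, mem_support_iff]
    refine ⟨?_, hi₀⟩
    intro h
    rw [h] at hi₀
    simp at hi₀
  have hc'0 : c' ≠ 0 := by
    intro h
    have := hcoef i₀
    rw [h, if_pos hi₀T, coeff_zero] at this
    rw [← this] at hi₀
    simp at hi₀
  have hdiff : ‖aeval x (c - c')‖ < 1 := by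
    rw [aeval_eq_sum_range]
    apply nsum_lt _ _ _ one_pos
    intro i _
    rw [Algebra.smul_def, norm_mul, norm_pow]
    have h1 : ‖(algebraMap E Om) ((c - c').coeff i)‖ < 1 := by
      rw [coeff_sub, hcoef]
      split_ifs with h
      · simp
      · rw [sub_zero]
        by_cases h0 : c.coeff i = 0
        · rw [h0]
          simp
        · have h2 : ‖(c.coeff i : Om)‖ ≠ 1 := by
            intro h3
            exact h (by rw [hT, Finset.mem_filter, mem_support_iff]; exact ⟨h0, h3⟩)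
          exact lt_of_le_of_ne (hc i) h2
    calc _ ≤ ‖(algebraMap E Om) ((c - c').coeff i)‖ * 1 :=
          mul_le_mul_of_nonneg_left (pow_le_one₀ (norm_nonneg _) hx) (norm_nonneg _)
      _ < 1 := by rwa [mul_one]
  have hc'x : ‖aeval x c'‖ < 1 := by
    have h1 : aeval x c' = aeval x c - aeval x (c - c') := by
      rw [map_sub]
      ring
    rw [h1, sub_eq_add_neg]
    refine (IsUltrametricDist.norm_add_le_max _ _).trans_lt (max_lt hlt ?_)
    rwa [norm_neg]
  have hlc : ‖(c'.leadingCoeff : Om)‖ = 1 := by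
    have h1 : c'.natDegree ∈ T := by
      by_contra h
      have h2 := hcoef c'.natDegree
      rw [if_neg h] at h2
      exact hc'0 (leadingCoeff_eq_zero.1 h2)
    have h2 := hcoef c'.natDegree
    rw [if_pos h1] at h2
    rw [leadingCoeff, h2]
    exact (Finset.mem_filter.1 h1).2
  have hlc0 : c'.leadingCoeff ≠ 0 := leadingCoeff_ne_zero.2 hc'0
  have hc'd : c'.natDegree < d := by
    apply lt_of_le_of_lt _ hcd
    rw [natDegree_le_iff_coeff_eq_zero]
    intro i hi
    rw [hcoef, if_neg]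
    intro h
    have := (Finset.mem_filter.1 h).1
    have := le_natDegree_of_mem_supp i this
    omega
  have hint' : IntE E c' := by
    intro i
    rw [hcoef]
    split_ifs
    · exact hc i
    · simp
  by_cases hdeg : c'.natDegree = 0
  · have h1 : c' = C c'.leadingCoeff := by
      rw [leadingCoeff, hdeg]
      exact eq_C_of_natDegree_eq_zero hdeg
    rw [h1, aeval_C] at hc'x
    have : ‖(algebraMap E Om) c'.leadingCoeff‖ = 1 := hlc
    linarith
  · have h1 : Sm E x c'.natDegree := by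
      refine ⟨Nat.one_le_iff_ne_zero.2 hdeg, c' * C c'.leadingCoeff⁻¹,
        monic_mul_leadingCoeff_inv hc'0, ?_, ?_, ?_⟩
      · exact natDegree_mul_leadingCoeff_inv _ hc'0
      · intro i
        rw [coeff_mul_C]
        have h2 : ((c'.coeff i * c'.leadingCoeff⁻¹ : E) : Om)
            = (c'.coeff i : Om) * (c'.leadingCoeff : Om)⁻¹ := by push_cast; rfl
        rw [h2, norm_mul, norm_inv, hlc, inv_one, mul_one]
        exact hint' i
      · rw [map_mul, aeval_C, norm_mul]
        have h2 : (algebraMap E Om) c'.leadingCoeff⁻¹ = (c'.leadingCoeff : Om)⁻¹ := by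
          rw [map_inv₀]
          rfl
        rw [h2, norm_inv, hlc, inv_one, mul_one]
        exact hc'x
    have := hmin _ h1
    omega

/-- A maximal good field has the full residue field. -/
theorem res_max (hE : Maximal Good E) (x : Om) (hx : ‖x‖ ≤ 1) : ∃ a ∈ E, ‖x - a‖ < 1 := by
  classical
  have hex := exists_Sm hE.prop x hx
  obtain ⟨hd1, ψ, hψm, hψd, hψi, hψx⟩ := Nat.find_spec hex
  have hmin : ∀ e, Sm E x e → Nat.find hex ≤ e := fun e he => Nat.find_min' hex he
  set d := Nat.find hex with hd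
  have hψx' : ‖(ψ.map (algebraMap E Om)).eval x‖ < 1 := by
    rw [eval_map_algebraMap]
    exact hψx
  obtain ⟨y, hy0, hxy⟩ := exists_root_near (ψ.map (algebraMap E Om)) (hψm.map _) x hψx'
  rw [eval_map_algebraMap] at hy0
  have hy1 : ‖y‖ ≤ 1 := by
    have h1 : y = x + -(x - y) := by ring
    rw [h1]
    refine (IsUltrametricDist.norm_add_le_max _ _).trans (max_le hx ?_)
    rw [norm_neg]
    exact hxy.le
  -- values of small degree polynomials at `y`
  have hval : ∀ c : E[X], IntE E c → c.natDegree < d → (∃ i, ‖(c.coeff i : Om)‖ = 1) →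
      ‖aeval y c‖ = 1 := by
    intro c hc hcd hi
    obtain ⟨i, hi⟩ := hi
    have h1 := claim x hx d hmin c hc hcd i hi
    apply le_antisymm (aeval_le E c hc y hy1)
    by_contra hlt
    push Not at hlt
    have h2 : aeval x c = (aeval x c - aeval y c) + aeval y c := by ring
    have h3 : ‖aeval x c‖ < 1 := by
      rw [h2]
      exact (IsUltrametricDist.norm_add_le_max _ _).trans_lt
        (max_lt ((aeval_sub_le E c hc x y hx hy1).trans_lt hxy) hlt)
    linarith
  -- the field generated by `y` is good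
  set K := IntermediateField.adjoin E {y} with hK
  have hrepr : ∀ z ∈ K, ∃ r : E[X], r.natDegree < d ∧ aeval y r = z := by
    intro z hz
    have hyi : IsIntegral E y := ⟨ψ, hψm, by rwa [← aeval_def]⟩
    rw [hK, ← IntermediateField.mem_toSubalgebra,
      IntermediateField.adjoin_simple_toSubalgebra_of_isAlgebraic hyi.isAlgebraic,
      Algebra.adjoin_singleton_eq_range_aeval] at hz
    obtain ⟨p, hp⟩ := hz
    have hp' : aeval y p = z := hp
    refine ⟨p %ₘ ψ, ?_, ?_⟩
    · have := natDegree_modByMonic_lt p hψm (by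
        intro h
        rw [h, natDegree_one] at hψd
        omega)
      rwa [hψd] at this
    · rw [aeval_modByMonic_eq_self_of_root hy0, hp']
  have hKgood : Good K.toSubfield := by
    refine ⟨?_, ?_⟩
    · intro z hz hz0
      obtain ⟨r, hrd, hrz⟩ := hrepr z hz
      have hr0 : r ≠ 0 := by
        rintro rfl
        rw [map_zero] at hrz
        exact hz0 hrz.symm
      obtain ⟨i₀, hi₀, hmax⟩ := Finset.exists_max_image r.support
        (fun i => ‖(r.coeff i : Om)‖) (nonempty_support_iff.2 hr0)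
      have hne : r.coeff i₀ ≠ 0 := mem_support_iff.1 hi₀
      have hne' : (r.coeff i₀ : Om) ≠ 0 := by
        intro h
        exact hne (Subtype.ext h)
      have hpos : 0 < ‖(r.coeff i₀ : Om)‖ := norm_pos_iff.2 hne'
      obtain ⟨k, hk⟩ := hE.prop.1 _ (r.coeff i₀).2 hne'
      have h1 := hval (C (r.coeff i₀)⁻¹ * r) ?_ ?_ ⟨i₀, ?_⟩
      · refine ⟨k, ?_⟩
        rw [map_mul, aeval_C, norm_mul, hrz] at h1
        have h2 : (algebraMap E Om) (r.coeff i₀)⁻¹ = (r.coeff i₀ : Om)⁻¹ := by
          rw [map_inv₀]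
          rfl
        rw [h2, norm_inv, inv_mul_eq_one₀ hpos.ne'] at h1
        rw [← h1, hk]
      · intro i
        rw [coeff_C_mul]
        have h2 : (((r.coeff i₀)⁻¹ * r.coeff i : E) : Om)
            = (r.coeff i₀ : Om)⁻¹ * (r.coeff i : Om) := by push_cast; rfl
        rw [h2, norm_mul, norm_inv, inv_mul_le_iff₀ hpos, mul_one]
        by_cases hi : i ∈ r.support
        · exact hmax i hi
        · rw [notMem_support_iff.1 hi]
          simp
      · exact lt_of_le_of_lt (natDegree_C_mul_le _ _) hrd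
      · rw [coeff_C_mul]
        have h2 : (((r.coeff i₀)⁻¹ * r.coeff i₀ : E) : Om) = 1 := by
          rw [inv_mul_cancel₀ hne]
          rfl
        rw [h2, norm_one]
    · intro q
      have := K.algebraMap_mem ⟨algebraMap ℚ_[2] Om q, hE.prop.2 q⟩
      exact this
  have hle : E ≤ K.toSubfield := by
    intro a ha
    exact K.algebraMap_mem ⟨a, ha⟩
  have hge : K.toSubfield ≤ E := hE.2 hKgood hle
  exact ⟨y, hge (IntermediateField.mem_adjoin_simple_self E y), hxy⟩

end

/-- Existence of the base field. -/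
theorem exists_base : ∃ F : IntermediateField ℚ_[2] Om,
    (∀ x ∈ F, x ≠ 0 → ∃ k : ℤ, ‖x‖ = (2 : ℝ) ^ k) ∧
    ∀ x : Om, ‖x‖ ≤ 1 → ∃ a ∈ F, ‖x - a‖ < 1 := by
  obtain ⟨E, hE⟩ := exists_max
  exact ⟨E.toIntermediateField hE.prop.2, hE.prop.1, fun x hx => res_max hE x hx⟩

end Pool.Agent.R369.Bas
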