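import Mathlib
import Pool.Agent.R369.Bas.Dyn
import Pool.Agent.R369.Bas.Fmax

/-!
The two non-squareness statements inside the algebraic closure of the 2-adic numbers.
-/

namespace Pool.Agent.R369.Bas

open Polynomial

/-- The data for an intermediate field. -/
noncomputable def mkData (F : IntermediateField ℚ_[2] Om)
    (h1 : ∀ x ∈ F, x ≠ 0 → ∃ k : ℤ, ‖x‖ = (2 : ℝ) ^ k)
    (h2 : ∀ x : Om, ‖x‖ ≤ 1 → ∃ a ∈ F, ‖x - a‖ < 1) (N : IntermediateField F Om) :
    RamData F N where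
  v :=
    { toFun := fun x => ‖(x : Om)‖
      map_mul' := fun x y => by
        rw [← norm_mul]
        rfl
      nonneg' := fun x => norm_nonneg _
      eq_zero' := fun x => by
        rw [norm_eq_zero]
        exact ⟨fun h => Subtype.ext h, fun h => by rw [h]; rfl⟩
      add_le' := fun x y => norm_add_le (x : Om) (y : Om) }
  na := fun x y => IsUltrametricDist.norm_add_le_max (x : Om) (y : Om)
  inv := fun σ x => by
    have e1 : minpoly ℚ_[2] ((σ x : N) : Om) = minpoly ℚ_[2] x :=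
      minpoly.algHom_eq ((N.val.comp σ.toAlgHom).restrictScalars ℚ_[2])
        (N.val.comp σ.toAlgHom).injective x
    have e2 : minpoly ℚ_[2] (x : Om) = minpoly ℚ_[2] x :=
      minpoly.algHom_eq (N.val.restrictScalars ℚ_[2]) N.val.injective x
    change spectralNorm ℚ_[2] Om ((σ x : N) : Om) = spectralNorm ℚ_[2] Om (x : Om)
    unfold spectralNorm
    rw [e1, e2]
  valF := fun a ha => by
    obtain ⟨k, hk⟩ := h1 a a.2 (fun h => ha (Subtype.ext h))
    exact ⟨k, hk⟩
  v2 := by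
    change ‖((2 : N) : Om)‖ = 1 / 2
    have e1 : ((2 : N) : Om) = algebraMap ℚ_[2] Om 2 := by
      rw [map_ofNat]
      rfl
    rw [e1, norm_alg]
    have := Padic.norm_p (p := 2)
    rw [Nat.cast_ofNat] at this
    rw [this]
    norm_num
  res := fun x hx => by
    obtain ⟨a, ha, hxa⟩ := h2 x hx
    exact ⟨⟨a, ha⟩, hxa⟩

section

variable (F : IntermediateField ℚ_[2] Om)

/-- The field generated by the preimages of level `m`. -/
noncomputable def NF (m : ℕ) : IntermediateField F Om :=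
  IntermediateField.adjoin F {z : Om | fI m z = 1}

theorem rootSet_gP (m : ℕ) : (gP F m).rootSet Om = {z : Om | fI m z = 1} := by
  ext z
  rw [mem_rootSet, aeval_gP, sub_eq_zero]
  exact ⟨fun h => h.2, fun h => ⟨(gP_monic_natDegree F m).1.ne_zero, h⟩⟩

theorem NF_split (m : ℕ) : IsSplittingField F (NF F m) (gP F m) := by
  unfold NF
  rw [← rootSet_gP]
  exact IntermediateField.adjoin_rootSet_isSplittingField (IsAlgClosed.splits _)

theorem NF_fin (m : ℕ) : FiniteDimensional F (NF F m) := by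
  have := NF_split F m
  exact IsSplittingField.finiteDimensional (NF F m) (gP F m)

theorem NF_gal (m : ℕ) : IsGalois F (NF F m) := by
  have h1 := NF_split F m
  have h2 := NF_fin F m
  have h3 : Normal F (NF F m) := Normal.of_isSplittingField (gP F m)
  have : CharZero F := inferInstance
  exact IsGalois.mk

theorem NF_gen (m : ℕ) (σ : NF F m ≃ₐ[F] NF F m) (h : ∀ x, fI m x = 1 → σ x = x) : σ = 1 := by
  have h1 : (NF F m).val.comp σ.toAlgHom = (NF F m).val := by
    refine IntermediateField.algHom_ext_of_eq_adjoin F (s := {z : Om | fI m z = 1}) rfl ?_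
    intro z hz
    have hz' : fI m (⟨z, IntermediateField.subset_adjoin F _ hz⟩ : NF F m) = 1 := by
      apply Subtype.ext
      have h3 : (NF F m).val (fI m ⟨z, IntermediateField.subset_adjoin F _ hz⟩) = 1 := by
        rw [← fI_map]
        exact hz
      exact h3
    have h2 := h _ hz'
    change ((σ ⟨z, _⟩ : NF F m) : Om) = z
    rw [h2]
  ext x
  have h2 := DFunLike.congr_fun h1 x
  exact h2

theorem locA_Om (h1 : ∀ x ∈ F, x ≠ 0 → ∃ k : ℤ, ‖x‖ = (2 : ℝ) ^ k)
    (h2 : ∀ x : Om, ‖x‖ ≤ 1 → ∃ a ∈ F, ‖x - a‖ < 1) (m : ℕ) (hm : 1 ≤ m) (β x : Om)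
    (hβ : fI m β = 1) (hx : x ^ 2 = 1 + β) (hmem : x ∈ NF F m) : False := by
  have := NF_fin F m
  have := NF_gal F m
  have hβm : β ∈ NF F m := IntermediateField.subset_adjoin F _ hβ
  refine (mkData F h1 h2 (NF F m)).locA m hm (NF_gen F m) ⟨β, hβm⟩ ⟨x, hmem⟩ ?_ ?_
  · apply Subtype.ext
    have h3 : (NF F m).val (fI m ⟨β, hβm⟩) = 1 := by
      rw [← fI_map]
      exact hβ
    exact h3
  · apply Subtype.ext
    exact hx

theorem locB_Om (h1 : ∀ x ∈ F, x ≠ 0 → ∃ k : ℤ, ‖x‖ = (2 : ℝ) ^ k)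
    (h2 : ∀ x : Om, ‖x‖ ≤ 1 → ∃ a ∈ F, ‖x - a‖ < 1) (k : ℕ) (hk : ¬ Even k) (γ x : Om)
    (hγ : fI k γ = 1) (hx : x ^ 2 = -γ) (hmem : x ∈ NF F (k + 1)) : False := by
  have := NF_fin F (k + 1)
  have := NF_gal F (k + 1)
  obtain ⟨β, hβ⟩ := IsAlgClosed.exists_pow_nat_eq (1 + γ) (n := 2) (by norm_num)
  have hβ1 : fI (k + 1) β = 1 := by
    rw [fI_succ, hβ]
    have : 1 + γ - 1 = γ := by ring
    rw [this, hγ]
  have hβm : β ∈ NF F (k + 1) := IntermediateField.subset_adjoin F _ hβ1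
  have hγm : γ ∈ NF F (k + 1) := by
    have : γ = β ^ 2 - 1 := by rw [hβ]; ring
    rw [this]
    exact sub_mem (pow_mem hβm 2) (one_mem _)
  refine (mkData F h1 h2 (NF F (k + 1))).locB k hk (NF_gen F (k + 1)) ⟨γ, hγm⟩ ⟨β, hβm⟩
    ⟨x, hmem⟩ ?_ ?_ ?_
  · apply Subtype.ext
    have h3 : (NF F (k + 1)).val (fI k ⟨γ, hγm⟩) = 1 := by
      rw [← fI_map]
      exact hγ
    exact h3
  · apply Subtype.ext
    exact hβ
  · apply Subtype.ext
    exact hx

end

end Pool.Agent.R369.Bas
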