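import Mathlib
import Pool.Agent.R369.Bas.Loc

/-!
Global field facts about the splitting field of `f^M - 1` over the rationals.
-/

namespace Pool.Agent.R369.Bas

open Polynomial

theorem fI_add {R : Type*} [CommRing R] (a b : ℕ) (x : R) : fI (a + b) x = fI a (fI b x) := by
  unfold fI
  rw [Function.iterate_add_apply]

theorem fP_map {R S : Type*} [CommRing R] [CommRing S] (f : R →+* S) (m : ℕ) :
    (fP R m).map f = fP S m := by
  induction m with
  | zero => simp [fP_zero]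
  | succ m ih => rw [fP_succ, fP_succ, Polynomial.map_sub, Polynomial.map_pow, ih,
      Polynomial.map_one]

theorem gP_map {R S : Type*} [CommRing R] [CommRing S] (f : R →+* S) (m : ℕ) :
    (gP R m).map f = gP S m := by
  unfold gP
  rw [Polynomial.map_sub, fP_map, Polynomial.map_one]

theorem exists_pre {L : Type*} [Field L] [IsAlgClosed L] (n : ℕ) : ∀ z : L, ∃ x, fI n x = z := by
  induction n with
  | zero => exact fun z => ⟨z, rfl⟩
  | succ n ih =>
    intro z
    obtain ⟨w, hw⟩ := ih z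
    obtain ⟨x, hx⟩ := IsAlgClosed.exists_pow_nat_eq (1 + w) (n := 2) (by norm_num)
    refine ⟨x, ?_⟩
    rw [fI_succ, hx]
    have : 1 + w - 1 = w := by ring
    rw [this, hw]

/-- Degree bound over the rationals. -/
theorem deg_ge (j : ℕ) (β : Om) (hβ : fI j β = 1) (q : ℚ[X]) (hq : q.natDegree < 2 ^ j)
    (h0 : aeval β q = 0) : q = 0 := by
  obtain ⟨F, h1, h2⟩ := exists_base
  have hβm : β ∈ NF F j := IntermediateField.subset_adjoin F _ hβ
  set D := mkData F h1 h2 (NF F j) with hD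
  have hx : fI j (⟨β, hβm⟩ : NF F j) = 1 := by
    apply Subtype.ext
    have h3 : (NF F j).val (fI j ⟨β, hβm⟩) = 1 := by
      rw [← fI_map]
      exact hβ
    exact h3
  have h4 : q.map (algebraMap ℚ F) = 0 := by
    apply D.indep' ⟨β, hβm⟩ (RamData.sc F j) (2 ^ j) (D.val_sc j _ hx)
    · rw [natDegree_map]
      exact hq
    · apply Subtype.ext
      have h5 : (NF F j).val (aeval (⟨β, hβm⟩ : NF F j) (q.map (algebraMap ℚ F))) = 0 := by
        rw [← Polynomial.aeval_algHom_apply]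
        change aeval β (q.map (algebraMap ℚ F)) = 0
        rw [aeval_map_algebraMap, h0]
      exact h5
  exact (Polynomial.map_eq_zero _).1 h4

section

variable (M : ℕ) {K : Type*} [Field K] [Algebra ℚ K] [hsp : IsSplittingField ℚ K (gP ℚ M)]

include hsp in
theorem K_fin : FiniteDimensional ℚ K := IsSplittingField.finiteDimensional K (gP ℚ M)

include hsp in
theorem K_gal : IsGalois ℚ K := by
  have := K_fin M (K := K)
  have h3 : Normal ℚ K := Normal.of_isSplittingField (gP ℚ M)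
  exact IsGalois.mk

include hsp in
theorem range_lvl (ψ : K →ₐ[ℚ] ℂ) (j : ℕ) (hj : j ≤ M) (z : ℂ) (hz : fI j z = 1) :
    ∃ x : K, ψ x = z := by
  have hs : (gP K M).Splits := by
    have := IsSplittingField.splits K (gP ℚ M)
    rwa [gP_map] at this
  obtain ⟨w, hw⟩ := exists_pre (M - j) z
  have hw1 : fI M w = 1 := by
    have : M = j + (M - j) := by omega
    rw [this, fI_add, hw, hz]
  have hroot : ((gP K M).map (ψ : K →+* ℂ)).IsRoot w := by
    rw [gP_map, IsRoot.def, ← coe_aeval_eq_eval, aeval_gP, hw1, sub_self]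
  obtain ⟨w', hw'⟩ := hs.mem_range_of_isRoot (gP_monic_natDegree K M).1.ne_zero hroot
  refine ⟨fI (M - j) w', ?_⟩
  have h1 : ψ w' = w := hw'
  rw [← fI_map, h1, hw]

include hsp in
theorem exists_psi : Nonempty (K →ₐ[ℚ] ℂ) := by
  have := K_fin M (K := K)
  exact ⟨IsAlgClosed.lift⟩

include hsp in
theorem sqrt_exists (j : ℕ) (hj : j < M) (β : K) (hβ : fI j β = 1) : ∃ r : K, r ^ 2 = 1 + β := by
  obtain ⟨ψ⟩ := exists_psi M (K := K)
  obtain ⟨z, hz⟩ := IsAlgClosed.exists_pow_nat_eq (1 + ψ β) (n := 2) (by norm_num)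
  have h1 : fI (j + 1) z = 1 := by
    rw [fI_succ, hz]
    have : 1 + ψ β - 1 = ψ β := by ring
    rw [this, fI_map, hβ, map_one]
  obtain ⟨r, hr⟩ := range_lvl M ψ (j + 1) hj z h1
  refine ⟨r, ?_⟩
  have e : ψ (r ^ 2) = ψ (1 + β) := by rw [map_pow, hr, hz, map_add, map_one]
  exact ψ.injective e

include hsp in
theorem K_trans (j : ℕ) (β β' : K) (hβ : fI j β = 1) (hβ' : fI j β' = 1) :
    ∃ σ : K ≃ₐ[ℚ] K, σ β = β' := by
  have h1 := K_fin M (K := K)
  have h2 := K_gal M (K := K)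
  obtain ⟨hm, hd⟩ := gP_monic_natDegree ℚ j
  let φ : K →ₐ[ℚ] Om := IsAlgClosed.lift
  have hmin : gP ℚ j = minpoly ℚ β := by
    apply minpoly.unique ℚ β hm (by rw [aeval_gP, hβ, sub_self])
    intro q hq hqx
    by_contra h
    push Not at h
    have h3 : q.natDegree < 2 ^ j := by
      rw [← hd]
      exact natDegree_lt_natDegree hq.ne_zero h
    apply hq.ne_zero
    apply deg_ge j (φ β) (by rw [fI_map, hβ, map_one]) q h3
    rw [Polynomial.aeval_algHom_apply, hqx, map_zero]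
  apply minpoly.exists_algEquiv_of_root' (Algebra.IsAlgebraic.isAlgebraic β)
  rw [← hmin, aeval_gP, hβ', sub_self]

omit hsp in
theorem map_mem (F : IntermediateField ℚ_[2] Om) (φ : K →ₐ[ℚ] Om) (j : ℕ) (x : K)
    (hx : x ∈ IntermediateField.adjoin ℚ {z : K | fI j z = 1}) : φ x ∈ NF F j := by
  refine IntermediateField.adjoin_induction ℚ (p := fun x _ => φ x ∈ NF F j) ?_ ?_ ?_ ?_ ?_ hx
  · intro z hz
    apply IntermediateField.subset_adjoin F
    change fI j (φ z) = 1
    rw [fI_map, (hz : fI j z = 1), map_one]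
  · intro q
    rw [AlgHom.commutes]
    have : algebraMap ℚ Om q = algebraMap F Om (algebraMap ℚ F q) := by
      rw [← IsScalarTower.algebraMap_apply]
    rw [this]
    exact (NF F j).algebraMap_mem _
  · intro x y _ _ hx hy
    rw [map_add]
    exact add_mem hx hy
  · intro x _ hx
    rw [map_inv₀]
    exact inv_mem hx
  · intro x y _ _ hx hy
    rw [map_mul]
    exact mul_mem hx hy

include hsp in
theorem exists_move (S : Set K) (x : K) (hx : x ∉ IntermediateField.adjoin ℚ S) :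
    ∃ h : K ≃ₐ[ℚ] K, (∀ z ∈ S, h z = z) ∧ h x ≠ x := by
  have h1 := K_fin M (K := K)
  have h2 := K_gal M (K := K)
  by_contra hcon
  push Not at hcon
  apply hx
  rw [← IsGalois.fixedField_fixingSubgroup (IntermediateField.adjoin ℚ S),
    IntermediateField.mem_fixedField_iff]
  intro τ hτ
  apply hcon
  rw [IntermediateField.mem_fixingSubgroup_iff] at hτ
  intro z hz
  exact hτ z (IntermediateField.subset_adjoin ℚ S hz)

include hsp in
/-- Flip of `√(1 + β)`. -/
theorem flipA (j : ℕ) (β r : K) (hβ : fI j β = 1) (hr : r ^ 2 = 1 + β) :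
    ∃ h : K ≃ₐ[ℚ] K, (∀ z, fI j z = 1 → h z = z) ∧ h r = -r := by
  by_cases hj : j = 0
  · subst hj
    have hr1 : fI 1 r = 1 := by
      rw [fI_succ, hr, fI_zero]
      rw [fI_zero] at hβ
      rw [hβ]
      ring
    have hr2 : fI 1 (-r) = 1 := by rw [fI_neg 1 le_rfl, hr1]
    obtain ⟨σ, hσ⟩ := K_trans M 1 r (-r) hr1 hr2
    refine ⟨σ, ?_, hσ⟩
    intro z hz
    rw [fI_zero] at hz
    rw [hz, map_one]
  · have hK := K_fin M (K := K)
    obtain ⟨F, h1, h2⟩ := exists_base
    let φ : K →ₐ[ℚ] Om := IsAlgClosed.lift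
    have hnot : r ∉ IntermediateField.adjoin ℚ {z : K | fI j z = 1} := by
      intro hmem
      have h3 := map_mem F φ j r hmem
      refine locA_Om F h1 h2 j (Nat.one_le_iff_ne_zero.2 hj) (φ β) (φ r) ?_ ?_ h3
      · rw [fI_map, hβ, map_one]
      · rw [← map_pow, hr, map_add, map_one]
    obtain ⟨h, hh1, hh2⟩ := exists_move M _ r hnot
    refine ⟨h, hh1, ?_⟩
    have h3 : (h r) ^ 2 = r ^ 2 := by
      rw [← map_pow, hr, map_add, map_one, hh1 β hβ]
    rcases sq_eq_sq_iff_eq_or_eq_neg.1 h3 with h4 | h4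
    · exact absurd h4 hh2
    · exact h4

include hsp in
/-- Flip of `√(-γ)`. -/
theorem flipB (k : ℕ) (hk : ¬ Even k) (γ x : K) (hγ : fI k γ = 1) (hx : x ^ 2 = -γ)
    (hγ' : ∀ h : K ≃ₐ[ℚ] K, (∀ z, fI (k + 1) z = 1 → h z = z) → h γ = γ) :
    ∃ h : K ≃ₐ[ℚ] K, (∀ z, fI (k + 1) z = 1 → h z = z) ∧ h x = -x := by
  have hK := K_fin M (K := K)
  obtain ⟨F, h1, h2⟩ := exists_base
  let φ : K →ₐ[ℚ] Om := IsAlgClosed.lift
  have hnot : x ∉ IntermediateField.adjoin ℚ {z : K | fI (k + 1) z = 1} := by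
    intro hmem
    have h3 := map_mem F φ (k + 1) x hmem
    refine locB_Om F h1 h2 k hk (φ γ) (φ x) ?_ ?_ h3
    · rw [fI_map, hγ, map_one]
    · rw [← map_pow, hx, map_neg]
  obtain ⟨h, hh1, hh2⟩ := exists_move M _ x hnot
  refine ⟨h, hh1, ?_⟩
  have h3 : (h x) ^ 2 = x ^ 2 := by
    rw [← map_pow, hx, map_neg, hγ' h hh1]
  rcases sq_eq_sq_iff_eq_or_eq_neg.1 h3 with h4 | h4
  · exact absurd h4 hh2
  · exact h4

end

end Pool.Agent.R369.Bas
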