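import Mathlib
import Pool.Agent.R369.Bas.Glob1

/-!
Complex conjugation, the 2-group property, and pairwise independence.
-/

namespace Pool.Agent.R369.Bas

open Polynomial

/-- The positive real preimage of `1`. -/
noncomputable def bR : ℕ → ℝ
  | 0 => 1
  | j + 1 => Real.sqrt (1 + bR j)

theorem bR_succ (j : ℕ) : bR (j + 1) = Real.sqrt (1 + bR j) := rfl

theorem bR_ge (j : ℕ) : 1 ≤ bR j := by
  induction j with
  | zero => exact le_rfl
  | succ j ih =>
    rw [bR_succ]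
    apply Real.le_sqrt_of_sq_le
    linarith

theorem bR_gt (j : ℕ) (hj : 1 ≤ j) : 1 < bR j := by
  obtain ⟨k, rfl⟩ : ∃ k, j = k + 1 := ⟨j - 1, by omega⟩
  rw [bR_succ]
  apply Real.lt_sqrt_of_sq_lt
  have := bR_ge k
  linarith

theorem bR_sq (j : ℕ) : (bR (j + 1)) ^ 2 = 1 + bR j := by
  rw [bR_succ, Real.sq_sqrt]
  have := bR_ge j
  linarith

theorem fI_bR (j : ℕ) : fI j (bR j) = 1 := by
  induction j with
  | zero => rfl
  | succ j ih =>
    rw [fI_succ, bR_sq]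
    have : 1 + bR j - 1 = bR j := by ring
    rw [this, ih]

theorem real_root (j : ℕ) (hj : 1 ≤ j) : ∀ x : ℝ, fI j x = 1 → x = bR j ∨ x = -bR j := by
  induction j, hj using Nat.le_induction with
  | base =>
    intro x hx
    rw [fI_succ, fI_zero] at hx
    have h1 : x ^ 2 = (bR 1) ^ 2 := by
      rw [bR_sq]
      have : bR 0 = 1 := rfl
      rw [this]
      linarith
    exact sq_eq_sq_iff_eq_or_eq_neg.1 h1
  | succ j hj ih =>
    intro x hx
    rw [fI_succ] at hx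
    rcases ih _ hx with h | h
    · have h1 : x ^ 2 = (bR (j + 1)) ^ 2 := by
        rw [bR_sq]
        linarith
      exact sq_eq_sq_iff_eq_or_eq_neg.1 h1
    · exfalso
      have h1 := bR_gt j hj
      have h2 := sq_nonneg x
      linarith

section

variable (M : ℕ) {K : Type*} [Field K] [Algebra ℚ K] [hsp : IsSplittingField ℚ K (gP ℚ M)]

include hsp in
theorem exists_c (j : ℕ) (hj : 1 ≤ j) (hjM : j ≤ M) : ∃ (b : K) (c : K ≃ₐ[ℚ] K),
    fI j b = 1 ∧ c b = b ∧ ∀ x, fI j x = 1 → c x = x → x = b ∨ x = -b := by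
  have h1 := K_fin M (K := K)
  have h2 := K_gal M (K := K)
  obtain ⟨ψ⟩ := exists_psi M (K := K)
  letI : Algebra K ℂ := ψ.toRingHom.toAlgebra
  haveI : IsScalarTower ℚ K ℂ := IsScalarTower.of_algebraMap_eq fun q => (ψ.commutes q).symm
  set χ : ℂ ≃ₐ[ℚ] ℂ := Complex.conjAe.restrictScalars ℚ with hχ
  have hc : ∀ x : K, ψ (χ.restrictNormal K x) = starRingEnd ℂ (ψ x) := fun x =>
    AlgEquiv.restrictNormal_commutes χ K x
  have hb' : fI j ((bR j : ℝ) : ℂ) = 1 := by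
    have := fI_map Complex.ofRealHom j (bR j)
    rw [fI_bR, map_one] at this
    exact this
  obtain ⟨b, hb⟩ := range_lvl M ψ j hjM _ hb'
  refine ⟨b, χ.restrictNormal K, ?_, ?_, ?_⟩
  · apply ψ.injective
    change ψ (fI j b) = ψ 1
    rw [← fI_map, hb, hb', map_one]
  · apply ψ.injective
    change ψ (χ.restrictNormal K b) = ψ b
    rw [hc, hb, Complex.conj_ofReal]
  · intro x hx hcx
    have h3 : starRingEnd ℂ (ψ x) = ψ x := by rw [← hc, hcx]
    obtain ⟨t, ht⟩ := Complex.conj_eq_iff_real.1 h3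
    have h4 : fI j t = 1 := by
      have h5 := fI_map Complex.ofRealHom j t
      have h6 : Complex.ofRealHom t = ψ x := ht.symm
      rw [h6, fI_map, hx, map_one] at h5
      have h7 : ((fI j t : ℝ) : ℂ) = ((1 : ℝ) : ℂ) := by
        rw [Complex.ofReal_one]
        exact h5.symm
      exact Complex.ofReal_injective h7
    rcases real_root j hj t h4 with h5 | h5
    · left
      apply ψ.injective
      change ψ x = ψ b
      rw [hb, ht, h5]
    · right
      apply ψ.injective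
      change ψ x = ψ (-b)
      rw [map_neg, hb, ht, h5, Complex.ofReal_neg]

omit hsp in
theorem pow_fix (σ : K ≃ₐ[ℚ] K) (j : ℕ) : ∀ x : K, fI j x = 1 → (σ ^ (2 ^ j)) x = x := by
  induction j with
  | zero =>
    intro x hx
    rw [fI_zero] at hx
    rw [hx, map_one]
  | succ j ih =>
    intro x hx
    rw [fI_succ] at hx
    have h1 := ih _ hx
    set τ := σ ^ (2 ^ j) with hτ
    have h2 : (τ x) ^ 2 = x ^ 2 := by
      rw [map_sub, map_pow, map_one] at h1
      linear_combination h1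
    have h3 : σ ^ (2 ^ (j + 1)) = τ * τ := by
      rw [hτ, ← pow_add]
      congr 1
      ring
    rw [h3, AlgEquiv.mul_apply]
    rcases sq_eq_sq_iff_eq_or_eq_neg.1 h2 with h4 | h4
    · rw [h4, h4]
    · rw [h4, map_neg, h4, neg_neg]

include hsp in
theorem isP : IsPGroup 2 (K ≃ₐ[ℚ] K) := by
  intro σ
  refine ⟨M, ?_⟩
  have h1 : ∀ x ∈ (gP ℚ M).rootSet K, (σ ^ (2 ^ M)) x = x := by
    intro x hx
    rw [mem_rootSet, aeval_gP, sub_eq_zero] at hx
    exact pow_fix σ M x hx.2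
  have h2 := IsSplittingField.adjoin_rootSet K (gP ℚ M)
  have h3 : (σ ^ (2 ^ M)).toAlgHom = AlgHom.id ℚ K := by
    apply AlgHom.ext_of_adjoin_eq_top h2
    intro x hx
    exact h1 x hx
  ext x
  exact DFunLike.congr_fun h3 x

theorem fI_neg_one (R : Type*) [CommRing R] (j : ℕ) :
    fI j (-1 : R) = -1 ∨ fI j (-1 : R) = 0 := by
  induction j with
  | zero => left; rfl
  | succ j ih =>
    rw [fI_succ']
    rcases ih with h | h
    · right; rw [h]; ring
    · left; rw [h]; ring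

omit hsp in
theorem one_add_ne (j : ℕ) (β : K) (hβ : fI j β = 1) : 1 + β ≠ 0 := by
  have : CharZero K := charZero_of_injective_algebraMap (algebraMap ℚ K).injective
  intro h
  have h1 : β = -1 := by linear_combination h
  rw [h1] at hβ
  rcases fI_neg_one K j with h2 | h2
  · rw [h2] at hβ
    have : (2 : K) = 0 := by linear_combination -hβ
    exact two_ne_zero this
  · rw [h2] at hβ
    exact zero_ne_one hβ

include hsp in
/-- Pairwise independence at even levels. -/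
theorem flip_pair (j : ℕ) (hj : Even j) (hjM : j < M) (β₁ β₂ r₁ r₂ : K) (h1 : fI j β₁ = 1)
    (h2 : fI j β₂ = 1) (hne : β₁ ≠ β₂) (hr1 : r₁ ^ 2 = 1 + β₁) (hr2 : r₂ ^ 2 = 1 + β₂) :
    ∃ h : K ≃ₐ[ℚ] K, (∀ z, fI j z = 1 → h z = z) ∧ h (r₁ * r₂) = -(r₁ * r₂) := by
  classical
  have hfin := K_fin M (K := K)
  have hgal := K_gal M (K := K)
  have hj2 : 1 ≤ j := by
    by_contra h
    have h0 : j = 0 := by omega
    subst h0
    rw [fI_zero] at h1 h2
    exact hne (h1.trans h2.symm)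
  by_contra hcon
  push Not at hcon
  set H : (K ≃ₐ[ℚ] K) → Prop := fun h => ∀ z, fI j z = 1 → h z = z with hH
  -- choice of square roots
  have hrt : ∀ β : K, ∃ r : K, fI j β = 1 → r ^ 2 = 1 + β := by
    intro β
    by_cases hβ : fI j β = 1
    · obtain ⟨r, hr⟩ := sqrt_exists M j hjM β hβ
      exact ⟨r, fun _ => hr⟩
    · exact ⟨0, fun h => absurd h hβ⟩
  choose rt hrt using hrt
  have hrt0 : ∀ β, fI j β = 1 → rt β ≠ 0 := by
    intro β hβ h
    have h3 := hrt β hβ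
    rw [h] at h3
    apply one_add_ne j β hβ
    rw [← h3]
    ring
  set E : (K ≃ₐ[ℚ] K) → K → K := fun h β => h (rt β) * (rt β)⁻¹ with hE
  have hE1 : ∀ h, H h → ∀ β, fI j β = 1 → E h β = 1 ∨ E h β = -1 := by
    intro h hh β hβ
    have h3 : (h (rt β)) ^ 2 = (rt β) ^ 2 := by
      rw [← map_pow, hrt β hβ, map_add, map_one, hh β hβ]
    have h4 := hrt0 β hβ
    rcases sq_eq_sq_iff_eq_or_eq_neg.1 h3 with h5 | h5
    · left
      simp only [hE]
      rw [h5, mul_inv_cancel₀ h4]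
    · right
      simp only [hE]
      rw [h5, neg_mul, mul_inv_cancel₀ h4]
  have hE2 : ∀ h, H h → ∀ β, fI j β = 1 → ∀ r, r ^ 2 = 1 + β → h r = E h β * r := by
    intro h hh β hβ r hr
    have h4 := hrt0 β hβ
    have h5 : r ^ 2 = (rt β) ^ 2 := by rw [hr, hrt β hβ]
    simp only [hE]
    rcases sq_eq_sq_iff_eq_or_eq_neg.1 h5 with h6 | h6
    · rw [h6, mul_assoc, inv_mul_cancel₀ h4, mul_one]
    · rw [h6, map_neg]
      field_simp
  have hEfix : ∀ h, H h → ∀ β, fI j β = 1 → ∀ σ : K ≃ₐ[ℚ] K, σ (E h β) = E h β := by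
    intro h hh β hβ σ
    rcases hE1 h hh β hβ with h3 | h3
    · rw [h3, map_one]
    · rw [h3, map_neg, map_one]
  have hroot : ∀ (σ : K ≃ₐ[ℚ] K) β, fI j β = 1 → fI j (σ β) = 1 := by
    intro σ β hβ
    rw [fI_map, hβ, map_one]
  have hHconj : ∀ h, H h → ∀ σ : K ≃ₐ[ℚ] K, H (σ⁻¹ * h * σ) := by
    intro h hh σ z hz
    rw [AlgEquiv.mul_apply, AlgEquiv.mul_apply, hh _ (hroot σ z hz), ← AlgEquiv.mul_apply,
      inv_mul_cancel, AlgEquiv.one_apply]
  have hEconj : ∀ h, H h → ∀ β, fI j β = 1 → ∀ σ : K ≃ₐ[ℚ] K,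
      E h (σ β) = E (σ⁻¹ * h * σ) β := by
    intro h hh β hβ σ
    have h3 : (σ (rt β)) ^ 2 = 1 + σ β := by rw [← map_pow, hrt β hβ, map_add, map_one]
    have h4 := hE2 h hh (σ β) (hroot σ β hβ) (σ (rt β)) h3
    have h5 := hE2 _ (hHconj h hh σ) β hβ (rt β) (hrt β hβ)
    have h6 : h (σ (rt β)) = σ ((σ⁻¹ * h * σ) (rt β)) := by
      rw [← AlgEquiv.mul_apply, ← AlgEquiv.mul_apply]
      congr 1
      group
    rw [h6, h5, map_mul, hEfix _ (hHconj h hh σ) β hβ σ] at h4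
    have h7 : σ (rt β) ≠ 0 := by
      rw [Ne, map_eq_zero]
      exact hrt0 β hβ
    exact (mul_right_cancel₀ h7 h4).symm
  set Rel : K → K → Prop := fun β β' => ∀ h, H h → E h β = E h β' with hRel
  have hRelσ : ∀ β β', fI j β = 1 → fI j β' = 1 → Rel β β' → ∀ σ : K ≃ₐ[ℚ] K,
      Rel (σ β) (σ β') := by
    intro β β' hβ hβ' hr σ h hh
    rw [hEconj h hh β hβ, hEconj h hh β' hβ']
    exact hr _ (hHconj h hh σ)
  have hRel12 : Rel β₁ β₂ := by
    intro h hh
    have h3 := hE2 h hh β₁ h1 r₁ hr1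
    have h4 := hE2 h hh β₂ h2 r₂ hr2
    have h5 := hcon h hh
    rw [map_mul, h3, h4] at h5
    have hr10 : r₁ ≠ 0 := by
      rintro rfl
      apply one_add_ne j β₁ h1
      rw [← hr1]
      ring
    have hr20 : r₂ ≠ 0 := by
      rintro rfl
      apply one_add_ne j β₂ h2
      rw [← hr2]
      ring
    rcases hE1 h hh β₁ h1 with e1 | e1 <;> rcases hE1 h hh β₂ h2 with e2 | e2
    · rw [e1, e2]
    · exfalso
      apply h5
      rw [e1, e2]
      ring
    · exfalso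
      apply h5
      rw [e1, e2]
      ring
    · rw [e1, e2]
  obtain ⟨b, c, hb, hcb, hcfix⟩ := exists_c M (K := K) j hj2 hjM.le
  obtain ⟨σ₁, hσ₁⟩ := K_trans M j β₁ b h1 hb
  have hb2 : fI j (σ₁ β₂) = 1 := hroot _ _ h2
  obtain ⟨τ₀, hτ₀⟩ := K_trans M j b (σ₁ β₂) hb hb2
  -- the subgroup T
  let T : Subgroup (K ≃ₐ[ℚ] K) :=
    { carrier := {τ | Rel b (τ b)}
      one_mem' := fun h _ => rfl
      mul_mem' := by
        intro σ τ hσ hτ h hh
        have h3 := hRelσ b (τ b) hb (hroot τ b hb) hτ σ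
        exact (hσ h hh).trans (h3 h hh)
      inv_mem' := by
        intro σ hσ h hh
        have h3 := hRelσ b (σ b) hb (hroot σ b hb) hσ σ⁻¹ h hh
        rw [← AlgEquiv.mul_apply σ⁻¹ σ b, inv_mul_cancel, AlgEquiv.one_apply] at h3
        exact h3.symm }
  have hTmem : ∀ τ, τ ∈ T ↔ Rel b (τ b) := fun τ => Iff.rfl
  let S : Subgroup (K ≃ₐ[ℚ] K) :=
    { carrier := {τ | τ b = b}
      one_mem' := rfl
      mul_mem' := by
        intro σ τ hσ hτ
        change (σ * τ) b = b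
        rw [AlgEquiv.mul_apply, (hτ : τ b = b), (hσ : σ b = b)]
      inv_mem' := by
        intro σ hσ
        change σ⁻¹ b = b
        conv_lhs => rw [← (hσ : σ b = b)]
        rw [← AlgEquiv.mul_apply, inv_mul_cancel, AlgEquiv.one_apply] }
  have hSmem : ∀ τ, τ ∈ S ↔ τ b = b := fun τ => Iff.rfl
  have hST : S ≤ T := by
    intro τ hτ h _
    rw [hSmem] at hτ
    rw [hτ]
  have hτ₀T : τ₀ ∈ T := by
    rw [hTmem, hτ₀]
    have h3 := hRelσ β₁ β₂ h1 h2 hRel12 σ₁
    rwa [hσ₁] at h3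
  have hτ₀S : τ₀ ∉ S := by
    rw [hSmem, hτ₀, ← hσ₁]
    intro h
    exact hne (σ₁.injective h).symm
  have hTp : IsPGroup 2 T := (isP M (K := K)).to_subgroup T
  have hnil : Group.IsNilpotent T := hTp.isNilpotent
  have hNC : NormalizerCondition T := Group.normalizerCondition_of_isNilpotent
  have hlt : S.subgroupOf T < ⊤ := by
    rw [lt_top_iff_ne_top]
    intro h
    have h3 : (⟨τ₀, hτ₀T⟩ : T) ∈ S.subgroupOf T := by
      rw [h]
      trivial
    rw [Subgroup.mem_subgroupOf] at h3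
    exact hτ₀S h3
  obtain ⟨n, hnN, hnS⟩ := SetLike.exists_of_lt (hNC _ hlt)
  rw [Subgroup.mem_subgroupOf] at hnS
  have hcS : (⟨c, hST hcb⟩ : T) ∈ S.subgroupOf T := by
    rw [Subgroup.mem_subgroupOf]
    exact hcb
  have hconj : n⁻¹ * ⟨c, hST hcb⟩ * n ∈ S.subgroupOf T := by
    rw [Subgroup.mem_normalizer_iff] at hnN
    have h3 := (hnN (n⁻¹ * ⟨c, hST hcb⟩ * n)).2
    apply h3
    have h4 : n * (n⁻¹ * ⟨c, hST hcb⟩ * n) * n⁻¹ = ⟨c, hST hcb⟩ := by group
    rw [h4]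
    exact hcS
  rw [Subgroup.mem_subgroupOf] at hconj
  have hcn : c ((n : K ≃ₐ[ℚ] K) b) = (n : K ≃ₐ[ℚ] K) b := by
    have h3 : ((n : K ≃ₐ[ℚ] K)⁻¹ * c * (n : K ≃ₐ[ℚ] K)) b = b := hconj
    have h4 := congrArg (n : K ≃ₐ[ℚ] K) h3
    rw [← AlgEquiv.mul_apply] at h4
    have h5 : (n : K ≃ₐ[ℚ] K) * ((n : K ≃ₐ[ℚ] K)⁻¹ * c * (n : K ≃ₐ[ℚ] K))
        = c * (n : K ≃ₐ[ℚ] K) := by group
    rw [h5, AlgEquiv.mul_apply] at h4
    exact h4
  have hnb : (n : K ≃ₐ[ℚ] K) b = -b := by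
    rcases hcfix _ (hroot _ b hb) hcn with h3 | h3
    · exact absurd h3 hnS
    · exact h3
  have hRelb : Rel b (-b) := by
    rw [← hnb]
    exact n.2
  -- the element x
  have hnegb : fI j (-b) = 1 := by rw [fI_neg j hj2, hb]
  obtain ⟨k, rfl⟩ : ∃ k, j = k + 1 := ⟨j - 1, by omega⟩
  have hk : ¬ Even k := Nat.even_add_one.1 hj
  have hγ : fI k (b ^ 2 - 1) = 1 := by rw [← fI_succ, hb]
  have hx : (rt b * rt (-b)) ^ 2 = -(b ^ 2 - 1) := by
    rw [mul_pow, hrt b hb, hrt (-b) hnegb]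
    ring
  obtain ⟨h, hh, hhx⟩ := flipB M k hk (b ^ 2 - 1) (rt b * rt (-b)) hγ hx (by
    intro h hh
    rw [map_sub, map_pow, map_one, hh b hb])
  have h3 := hE2 h hh b hb _ (hrt b hb)
  have h4 := hE2 h hh (-b) hnegb _ (hrt (-b) hnegb)
  have h5 := hRelb h hh
  rw [map_mul, h3, h4, ← h5] at hhx
  have hx0 : rt b * rt (-b) ≠ 0 := mul_ne_zero (hrt0 b hb) (hrt0 (-b) hnegb)
  have : CharZero K := charZero_of_injective_algebraMap (algebraMap ℚ K).injective
  have h6 : (2 : K) * (rt b * rt (-b)) = 0 := by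
    rcases hE1 h hh b hb with e | e
    · rw [e] at hhx
      linear_combination hhx
    · rw [e] at hhx
      linear_combination hhx
  rcases mul_eq_zero.1 h6 with h7 | h7
  · exact two_ne_zero h7
  · exact hx0 h7

end

end Pool.Agent.R369.Bas
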