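import Mathlib

/-!
Elementary averaging lemmas.
-/

namespace Pool.Agent.R369.Bas

theorem g_ineq (r y : ℝ) (hr : 0 ≤ r) (hy0 : 0 ≤ y) (hy : y ≤ 2 * r) :
    y / (1 + y) ≤ r / (1 + r) + (y - r) / (1 + r) ^ 2
      - (y - r) ^ 2 / ((1 + r) ^ 2 * (1 + 2 * r)) := by
  have h1 : (0 : ℝ) < 1 + r := by linarith
  have h2 : (0 : ℝ) < 1 + y := by linarith
  have h3 : (0 : ℝ) < 1 + 2 * r := by linarith
  have key : y / (1 + y) = r / (1 + r) + (y - r) / (1 + r) ^ 2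
      - (y - r) ^ 2 / ((1 + r) ^ 2 * (1 + y)) := by
    field_simp
    ring
  rw [key]
  have h4 : (y - r) ^ 2 / ((1 + r) ^ 2 * (1 + 2 * r)) ≤ (y - r) ^ 2 / ((1 + r) ^ 2 * (1 + y)) := by
    apply div_le_div_of_nonneg_left (sq_nonneg _) (by positivity)
    apply mul_le_mul_of_nonneg_left (by linarith) (by positivity)
  linarith

section

variable {G ι : Type*} (H : Finset G) (S : Finset ι) (s : ι → ℝ) (a : G → ι → ℝ)

theorem step_sum (h0 : ∀ i ∈ S, ∑ h ∈ H, a h i = 0) :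
    ∑ h ∈ H, ∑ i ∈ S, (1 + s i * a h i) = H.card * S.card := by
  rw [Finset.sum_comm]
  have : ∀ i ∈ S, ∑ h ∈ H, (1 + s i * a h i) = H.card := by
    intro i hi
    rw [Finset.sum_add_distrib, ← Finset.mul_sum, h0 i hi]
    simp
  rw [Finset.sum_congr rfl this]
  simp [mul_comm]

theorem step_sq (hs : ∀ i ∈ S, s i * s i = 1) (ha : ∀ h ∈ H, ∀ i ∈ S, a h i * a h i = 1)
    (horth : ∀ i ∈ S, ∀ j ∈ S, i ≠ j → ∑ h ∈ H, a h i * a h j = 0) :
    ∑ h ∈ H, ((∑ i ∈ S, (1 + s i * a h i)) - S.card) ^ 2 = H.card * S.card := by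
  classical
  have h1 : ∀ h ∈ H, ((∑ i ∈ S, (1 + s i * a h i)) - S.card) ^ 2 =
      ∑ i ∈ S, ∑ j ∈ S, (s i * s j) * (a h i * a h j) := by
    intro h _
    rw [Finset.sum_add_distrib]
    simp only [Finset.sum_const, nsmul_eq_mul, mul_one, add_sub_cancel_left]
    rw [sq, Finset.sum_mul_sum]
    refine Finset.sum_congr rfl fun i _ => Finset.sum_congr rfl fun j _ => ?_
    ring
  rw [Finset.sum_congr rfl h1, Finset.sum_comm]
  have h2 : ∀ i ∈ S, ∑ h ∈ H, ∑ j ∈ S, (s i * s j) * (a h i * a h j) = H.card := by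
    intro i hi
    rw [Finset.sum_comm]
    rw [Finset.sum_eq_single i]
    · rw [← Finset.mul_sum, hs i hi, one_mul, Finset.sum_congr rfl fun h hh => ha h hh i hi]
      simp
    · intro j hj hji
      rw [← Finset.mul_sum, horth i hi j hj (Ne.symm hji), mul_zero]
    · intro hi'
      exact absurd hi hi'
  rw [Finset.sum_congr rfl h2]
  simp [mul_comm]

theorem step_range (hs : ∀ i ∈ S, s i = 1 ∨ s i = -1) (ha : ∀ h ∈ H, ∀ i ∈ S, a h i = 1 ∨ a h i = -1)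
    (h : G) (hh : h ∈ H) :
    0 ≤ ∑ i ∈ S, (1 + s i * a h i) ∧ ∑ i ∈ S, (1 + s i * a h i) ≤ 2 * S.card := by
  constructor
  · apply Finset.sum_nonneg
    intro i hi
    rcases hs i hi with h1 | h1 <;> rcases ha h hh i hi with h2 | h2 <;> rw [h1, h2] <;> norm_num
  · have : ∑ i ∈ S, (1 + s i * a h i) ≤ ∑ _i ∈ S, (2 : ℝ) := by
      apply Finset.sum_le_sum
      intro i hi
      rcases hs i hi with h1 | h1 <;> rcases ha h hh i hi with h2 | h2 <;> rw [h1, h2] <;> norm_num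
    refine this.trans (le_of_eq ?_)
    simp [mul_comm]

theorem step_g (hs : ∀ i ∈ S, s i = 1 ∨ s i = -1) (ha : ∀ h ∈ H, ∀ i ∈ S, a h i = 1 ∨ a h i = -1)
    (h0 : ∀ i ∈ S, ∑ h ∈ H, a h i = 0) (v : ℝ)
    (hv : v ≤ ∑ h ∈ H, ((∑ i ∈ S, (1 + s i * a h i)) - S.card) ^ 2) :
    ∑ h ∈ H, (∑ i ∈ S, (1 + s i * a h i)) / (1 + ∑ i ∈ S, (1 + s i * a h i)) ≤
      H.card * ((S.card : ℝ) / (1 + S.card))
        - v / ((1 + (S.card : ℝ)) ^ 2 * (1 + 2 * S.card)) := by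
  set r : ℝ := (S.card : ℝ) with hr
  have hr0 : 0 ≤ r := by positivity
  set y : G → ℝ := fun h => ∑ i ∈ S, (1 + s i * a h i) with hy
  have h1 : ∑ h ∈ H, y h / (1 + y h) ≤ ∑ h ∈ H, (r / (1 + r) + (y h - r) / (1 + r) ^ 2
      - (y h - r) ^ 2 / ((1 + r) ^ 2 * (1 + 2 * r))) := by
    apply Finset.sum_le_sum
    intro h hh
    obtain ⟨h2, h3⟩ := step_range H S s a hs ha h hh
    exact g_ineq r (y h) hr0 h2 h3
  refine h1.trans ?_
  rw [Finset.sum_sub_distrib, Finset.sum_add_distrib, ← Finset.sum_div, ← Finset.sum_div,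
    Finset.sum_sub_distrib]
  have h2 : ∑ h ∈ H, y h = H.card * S.card := step_sum H S s a h0
  rw [h2]
  simp only [Finset.sum_const, nsmul_eq_mul]
  rw [← hr, sub_self, zero_div, add_zero]
  have h3 : v / ((1 + r) ^ 2 * (1 + 2 * r)) ≤
      (∑ h ∈ H, (y h - r) ^ 2) / ((1 + r) ^ 2 * (1 + 2 * r)) := by
    apply div_le_div_of_nonneg_right hv (by positivity)
  rw [Finset.sum_div] at h3
  rw [mul_div_assoc]
  linarith

end

/-- Pointwise bound used at the end. -/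
theorem point_bound (R : ℕ) (hR : 1 ≤ R) (x : ℕ) (hx : 1 ≤ x) :
    (1 : ℝ) ≤ (x : ℝ) / R +
      ((1 + (R : ℝ)) ^ 2 * (1 + 2 * R)) * ((x : ℝ) / ((1 + (x : ℝ)) ^ 2 * (1 + 2 * x))) := by
  have hR' : (1 : ℝ) ≤ R := by exact_mod_cast hR
  have hx' : (1 : ℝ) ≤ x := by exact_mod_cast hx
  rcases le_total R x with h | h
  · have h' : (R : ℝ) ≤ x := by exact_mod_cast h
    have h1 : (1 : ℝ) ≤ (x : ℝ) / R := by
      rw [le_div_iff₀ (by linarith)]
      linarith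
    have h2 : 0 ≤ ((1 + (R : ℝ)) ^ 2 * (1 + 2 * R)) * ((x : ℝ) / ((1 + (x : ℝ)) ^ 2 * (1 + 2 * x))) :=
      by positivity
    linarith
  · have h' : (x : ℝ) ≤ R := by exact_mod_cast h
    have h1 : (1 : ℝ) ≤
        ((1 + (R : ℝ)) ^ 2 * (1 + 2 * R)) * ((x : ℝ) / ((1 + (x : ℝ)) ^ 2 * (1 + 2 * x))) := by
      rw [← mul_div_assoc, le_div_iff₀ (by positivity), one_mul]
      have h2 : (1 + (x : ℝ)) ^ 2 * (1 + 2 * x) ≤ (1 + (R : ℝ)) ^ 2 * (1 + 2 * R) := by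
        apply mul_le_mul
        · apply pow_le_pow_left₀ (by positivity)
          linarith
        · linarith
        · positivity
        · positivity
      have h3 : (0 : ℝ) ≤ (1 + (R : ℝ)) ^ 2 * (1 + 2 * R) := by positivity
      nlinarith
    have h2 : (0 : ℝ) ≤ (x : ℝ) / R := by positivity
    linarith

end Pool.Agent.R369.Bas
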