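import Mathlib
import Pool.Agent.R369.Bas.Glob2
import Pool.Agent.R369.Bas.Prob

/-!
Counting fixed points in the Galois group of `f^M - 1`.
-/

namespace Pool.Agent.R369.Bas

open Polynomial

open scoped Classical in
/-- The preimages of level `j`. -/
noncomputable def Rt (K : Type*) [Field K] (j : ℕ) : Finset K := (gP K j).roots.toFinset

theorem mem_Rt {K : Type*} [Field K] (j : ℕ) (x : K) : x ∈ Rt K j ↔ fI j x = 1 := by
  classical
  unfold Rt
  rw [Multiset.mem_toFinset, mem_roots (gP_monic_natDegree K j).1.ne_zero, IsRoot.def,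
    ← coe_aeval_eq_eval, aeval_gP, sub_eq_zero]

open scoped Classical in
/-- A chosen square root of `1 + β`. -/
noncomputable def rtK {K : Type*} [Field K] (β : K) : K :=
  if h : ∃ r : K, r ^ 2 = 1 + β then h.choose else 0

section

variable (M : ℕ) {K : Type*} [Field K] [Algebra ℚ K] [hsp : IsSplittingField ℚ K (gP ℚ M)]

include hsp in
theorem rtK_sq (j : ℕ) (hj : j < M) (β : K) (hβ : fI j β = 1) : (rtK β) ^ 2 = 1 + β := by
  have h := sqrt_exists M j hj β hβ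
  unfold rtK
  rw [dif_pos h]
  exact h.choose_spec

include hsp in
theorem rtK_ne (j : ℕ) (hj : j < M) (β : K) (hβ : fI j β = 1) : rtK β ≠ 0 := by
  intro h
  have h1 := rtK_sq M j hj β hβ
  rw [h] at h1
  apply one_add_ne j β hβ
  rw [← h1]
  ring

omit hsp in
theorem neg_ne_self (x : K) (hx : x ≠ 0) : -x ≠ x := by
  have : CharZero K := charZero_of_injective_algebraMap (algebraMap ℚ K).injective
  intro h
  have h1 : 2 * x = 0 := by linear_combination -h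
  rcases mul_eq_zero.1 h1 with h2 | h2
  · exact two_ne_zero h2
  · exact hx h2

open scoped Classical in
/-- The sign of the action on the chosen square root. -/
noncomputable def sg (σ : K ≃ₐ[ℚ] K) (β : K) : ℝ := if σ (rtK β) = rtK β then 1 else -1

omit hsp in
theorem sg_cases (σ : K ≃ₐ[ℚ] K) (β : K) : sg σ β = 1 ∨ sg σ β = -1 := by
  unfold sg
  split_ifs
  · exact Or.inl rfl
  · exact Or.inr rfl

include hsp in
theorem act_cases (j : ℕ) (hj : j < M) (β : K) (hβ : fI j β = 1) (σ : K ≃ₐ[ℚ] K) (hσ : σ β = β) :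
    (σ (rtK β) = rtK β ∧ sg σ β = 1) ∨ (σ (rtK β) = -rtK β ∧ sg σ β = -1) := by
  have h1 : (σ (rtK β)) ^ 2 = (rtK β) ^ 2 := by
    rw [← map_pow, rtK_sq M j hj β hβ, map_add, map_one, hσ]
  have h2 := neg_ne_self (rtK β) (rtK_ne M j hj β hβ)
  rcases sq_eq_sq_iff_eq_or_eq_neg.1 h1 with h | h
  · left
    refine ⟨h, ?_⟩
    unfold sg
    rw [if_pos h]
  · right
    refine ⟨h, ?_⟩
    unfold sg
    rw [if_neg]
    rw [h]
    exact h2

include hsp in
theorem sg_of_neg (j : ℕ) (hj : j < M) (β : K) (hβ : fI j β = 1) (σ : K ≃ₐ[ℚ] K)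
    (h : σ (rtK β) = -rtK β) : sg σ β = -1 := by
  unfold sg
  rw [if_neg]
  rw [h]
  exact neg_ne_self (rtK β) (rtK_ne M j hj β hβ)

include hsp in
theorem sg_mul (j : ℕ) (hj : j < M) (β : K) (hβ : fI j β = 1) (σ h : K ≃ₐ[ℚ] K) (hσ : σ β = β)
    (hh : h β = β) : sg (σ * h) β = sg σ β * sg h β := by
  have hσh : (σ * h) β = β := by rw [AlgEquiv.mul_apply, hh, hσ]
  have h2 := neg_ne_self (rtK β) (rtK_ne M j hj β hβ)
  have e : (σ * h) (rtK β) = σ (h (rtK β)) := rfl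
  rcases act_cases M j hj β hβ σ hσ with ⟨a1, a2⟩ | ⟨a1, a2⟩ <;>
    rcases act_cases M j hj β hβ h hh with ⟨b1, b2⟩ | ⟨b1, b2⟩ <;>
    rcases act_cases M j hj β hβ (σ * h) hσh with ⟨c1, c2⟩ | ⟨c1, c2⟩ <;>
    rw [a2, b2, c2] <;> rw [e, b1] at c1 <;> (try rw [map_neg] at c1) <;> rw [a1] at c1 <;>
    first
    | (norm_num; done)
    | (exfalso
       first
       | exact h2 c1
       | exact h2 c1.symm
       | (rw [neg_neg] at c1; exact h2 c1)
       | (rw [neg_neg] at c1; exact h2 c1.symm))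

open scoped Classical in
/-- Fixed points of level `j`. -/
noncomputable def Fx (j : ℕ) (σ : K ≃ₐ[ℚ] K) : Finset K := (Rt K j).filter fun x => σ x = x

omit hsp in
theorem mem_Fx (j : ℕ) (σ : K ≃ₐ[ℚ] K) (x : K) : x ∈ Fx j σ ↔ fI j x = 1 ∧ σ x = x := by
  classical
  unfold Fx
  rw [Finset.mem_filter, mem_Rt]

include hsp in
theorem card_succ (j : ℕ) (hj : j < M) (τ : K ≃ₐ[ℚ] K) :
    ((Fx (j + 1) τ).card : ℝ) = ∑ β ∈ Fx j τ, (1 + sg τ β) := by
  classical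
  have hmaps : ∀ x ∈ Fx (j + 1) τ, x ^ 2 - 1 ∈ Fx j τ := by
    intro x hx
    rw [mem_Fx] at hx ⊢
    refine ⟨by rw [← fI_succ]; exact hx.1, ?_⟩
    rw [map_sub, map_pow, map_one, hx.2]
  rw [Finset.card_eq_sum_card_fiberwise hmaps]
  push_cast
  refine Finset.sum_congr rfl fun β hβ => ?_
  rw [mem_Fx] at hβ
  obtain ⟨hβ1, hβ2⟩ := hβ
  have hsq := rtK_sq M j hj β hβ1
  have hne := neg_ne_self (rtK β) (rtK_ne M j hj β hβ1)
  rcases act_cases M j hj β hβ1 τ hβ2 with ⟨h1, h2⟩ | ⟨h1, h2⟩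
  · rw [h2]
    have : (Fx (j + 1) τ).filter (fun x => x ^ 2 - 1 = β) = {rtK β, -rtK β} := by
      ext x
      rw [Finset.mem_filter, mem_Fx, Finset.mem_insert, Finset.mem_singleton, fI_succ]
      constructor
      · rintro ⟨_, h3⟩
        have h4 : x ^ 2 = (rtK β) ^ 2 := by
          rw [hsq]
          linear_combination h3
        exact sq_eq_sq_iff_eq_or_eq_neg.1 h4
      · rintro (rfl | rfl)
        · have h3 : rtK β ^ 2 - 1 = β := by rw [hsq]; ring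
          exact ⟨⟨by rw [h3, hβ1], h1⟩, h3⟩
        · have h3 : (-rtK β) ^ 2 - 1 = β := by rw [neg_sq, hsq]; ring
          exact ⟨⟨by rw [h3, hβ1], by rw [map_neg, h1]⟩, h3⟩
    rw [this, Finset.card_pair hne.symm]
    norm_num
  · rw [h2]
    have : (Fx (j + 1) τ).filter (fun x => x ^ 2 - 1 = β) = ∅ := by
      rw [Finset.filter_eq_empty_iff]
      intro x hx h3
      rw [mem_Fx] at hx
      have h4 : x ^ 2 = (rtK β) ^ 2 := by
        rw [hsq]
        linear_combination h3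
      rcases sq_eq_sq_iff_eq_or_eq_neg.1 h4 with h5 | h5
      · rw [h5, h1] at hx
        exact hne hx.2
      · rw [h5, map_neg, h1, neg_neg] at hx
        exact hne hx.2.symm
    rw [this]
    norm_num

variable [Fintype (K ≃ₐ[ℚ] K)]

open scoped Classical in
/-- The pointwise stabilizer of level `j`. -/
noncomputable def HF (K : Type*) [Field K] [Algebra ℚ K] [Fintype (K ≃ₐ[ℚ] K)] (j : ℕ) :
    Finset (K ≃ₐ[ℚ] K) := Finset.univ.filter fun h => ∀ z, fI j z = 1 → h z = z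

omit hsp in
theorem mem_HF (j : ℕ) (h : K ≃ₐ[ℚ] K) : h ∈ HF K j ↔ ∀ z, fI j z = 1 → h z = z := by
  unfold HF
  simp

omit hsp in
theorem HF_card_pos (j : ℕ) : 0 < (HF K j).card := by
  apply Finset.card_pos.2
  exact ⟨1, by rw [mem_HF]; intro z _; rfl⟩

omit hsp in
theorem HF_reindex (j : ℕ) (h₀ : K ≃ₐ[ℚ] K) (hh : h₀ ∈ HF K j) (f : (K ≃ₐ[ℚ] K) → ℝ) :
    ∑ h ∈ HF K j, f (h * h₀) = ∑ h ∈ HF K j, f h := by
  rw [mem_HF] at hh
  refine Finset.sum_bij (fun h _ => h * h₀) ?_ ?_ ?_ ?_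
  · intro h hh1
    rw [mem_HF] at hh1 ⊢
    intro z hz
    rw [AlgEquiv.mul_apply, hh z hz, hh1 z hz]
  · intro a _ b _ h
    exact mul_right_cancel h
  · intro h hh1
    refine ⟨h * h₀⁻¹, ?_, by simp⟩
    rw [mem_HF] at hh1 ⊢
    intro z hz
    have : h₀⁻¹ z = z := by
      conv_lhs => rw [← hh z hz]
      rw [← AlgEquiv.mul_apply, inv_mul_cancel, AlgEquiv.one_apply]
    rw [AlgEquiv.mul_apply, this, hh1 z hz]
  · intro h _
    rfl

include hsp in
theorem sum_sg (j : ℕ) (hj : j < M) (β : K) (hβ : fI j β = 1) : ∑ h ∈ HF K j, sg h β = 0 := by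
  obtain ⟨h₀, h1, h2⟩ := flipA M j β (rtK β) hβ (rtK_sq M j hj β hβ)
  have h3 := sg_of_neg M j hj β hβ h₀ h2
  have h4 := HF_reindex j h₀ ((mem_HF j h₀).2 h1) (fun h => sg h β)
  have h5 : ∑ h ∈ HF K j, sg (h * h₀) β = ∑ h ∈ HF K j, -sg h β := by
    refine Finset.sum_congr rfl fun h hh => ?_
    rw [mem_HF] at hh
    rw [sg_mul M j hj β hβ h h₀ (hh β hβ) (h1 β hβ), h3]
    ring
  rw [h5, Finset.sum_neg_distrib] at h4
  linarith

include hsp in
theorem orth_sg (j : ℕ) (hjE : Even j) (hj : j < M) (β β' : K) (hβ : fI j β = 1)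
    (hβ' : fI j β' = 1) (hne : β ≠ β') : ∑ h ∈ HF K j, sg h β * sg h β' = 0 := by
  obtain ⟨h₀, h1, h2⟩ := flip_pair M j hjE hj β β' (rtK β) (rtK β') hβ hβ' hne
    (rtK_sq M j hj β hβ) (rtK_sq M j hj β' hβ')
  have h3 : sg h₀ β * sg h₀ β' = -1 := by
    have hx : rtK β * rtK β' ≠ 0 := mul_ne_zero (rtK_ne M j hj β hβ) (rtK_ne M j hj β' hβ')
    have hn := neg_ne_self _ hx
    rw [map_mul] at h2
    rcases act_cases M j hj β hβ h₀ (h1 β hβ) with ⟨a1, a2⟩ | ⟨a1, a2⟩ <;>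
      rcases act_cases M j hj β' hβ' h₀ (h1 β' hβ') with ⟨b1, b2⟩ | ⟨b1, b2⟩ <;>
      rw [a2, b2]
    · exfalso
      rw [a1, b1] at h2
      exact hn h2.symm
    · norm_num
    · norm_num
    · exfalso
      rw [a1, b1, neg_mul_neg] at h2
      exact hn h2.symm
  have h4 := HF_reindex j h₀ ((mem_HF j h₀).2 h1) (fun h => sg h β * sg h β')
  have h5 : ∑ h ∈ HF K j, sg (h * h₀) β * sg (h * h₀) β' = ∑ h ∈ HF K j, -(sg h β * sg h β') := by
    refine Finset.sum_congr rfl fun h hh => ?_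
    rw [mem_HF] at hh
    rw [sg_mul M j hj β hβ h h₀ (hh β hβ) (h1 β hβ),
      sg_mul M j hj β' hβ' h h₀ (hh β' hβ') (h1 β' hβ')]
    have : sg h β * sg h₀ β * (sg h β' * sg h₀ β') = (sg h β * sg h β') * (sg h₀ β * sg h₀ β') := by
      ring
    rw [this, h3]
    ring
  rw [h5, Finset.sum_neg_distrib] at h4
  linarith

omit hsp in
theorem Fx_mul (j : ℕ) (σ h : K ≃ₐ[ℚ] K) (hh : h ∈ HF K j) : Fx j (σ * h) = Fx j σ := by
  rw [mem_HF] at hh
  ext x
  rw [mem_Fx, mem_Fx]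
  constructor
  · rintro ⟨h1, h2⟩
    rw [AlgEquiv.mul_apply, hh x h1] at h2
    exact ⟨h1, h2⟩
  · rintro ⟨h1, h2⟩
    refine ⟨h1, ?_⟩
    rw [AlgEquiv.mul_apply, hh x h1, h2]

include hsp in
theorem card_mul (j : ℕ) (hj : j < M) (σ h : K ≃ₐ[ℚ] K) (hh : h ∈ HF K j) :
    ((Fx (j + 1) (σ * h)).card : ℝ) = ∑ β ∈ Fx j σ, (1 + sg σ β * sg h β) := by
  rw [card_succ M j hj, Fx_mul j σ h hh]
  refine Finset.sum_congr rfl fun β hβ => ?_
  rw [mem_Fx] at hβ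
  rw [mem_HF] at hh
  rw [sg_mul M j hj β hβ.1 σ h hβ.2 (hh β hβ.1)]

omit hsp in
theorem total_reindex (j : ℕ) (f : (K ≃ₐ[ℚ] K) → ℝ) :
    ((HF K j).card : ℝ) * ∑ σ : K ≃ₐ[ℚ] K, f σ = ∑ σ : K ≃ₐ[ℚ] K, ∑ h ∈ HF K j, f (σ * h) := by
  rw [Finset.sum_comm]
  have : ∀ h ∈ HF K j, ∑ σ : K ≃ₐ[ℚ] K, f (σ * h) = ∑ σ : K ≃ₐ[ℚ] K, f σ := by
    intro h _
    exact Equiv.sum_comp (Equiv.mulRight h) f
  rw [Finset.sum_congr rfl this]
  simp

include hsp in
theorem mean_succ (j : ℕ) (hj : j < M) :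
    ∑ σ : K ≃ₐ[ℚ] K, ((Fx (j + 1) σ).card : ℝ) = ∑ σ : K ≃ₐ[ℚ] K, ((Fx j σ).card : ℝ) := by
  have hpos : (0 : ℝ) < (HF K j).card := by exact_mod_cast HF_card_pos j
  have h1 := total_reindex j fun σ : K ≃ₐ[ℚ] K => ((Fx (j + 1) σ).card : ℝ)
  have h2 : ∀ σ : K ≃ₐ[ℚ] K, ∑ h ∈ HF K j, ((Fx (j + 1) (σ * h)).card : ℝ) =
      (HF K j).card * (Fx j σ).card := by
    intro σ
    rw [Finset.sum_congr rfl fun h hh => card_mul M j hj σ h hh]
    exact step_sum (HF K j) (Fx j σ) (sg σ) sg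
      (fun β hβ => sum_sg M j hj β ((mem_Fx j σ β).1 hβ).1)
  rw [Finset.sum_congr rfl fun σ _ => h2 σ, ← Finset.mul_sum] at h1
  exact mul_left_cancel₀ hpos.ne' h1

/-- The concave weight. -/
noncomputable def gw (x : ℕ) : ℝ := (x : ℝ) / (1 + x)

/-- The loss. -/
noncomputable def cw (x : ℕ) : ℝ := (x : ℝ) / ((1 + (x : ℝ)) ^ 2 * (1 + 2 * x))

include hsp in
theorem gamma_step (j : ℕ) (hj : j < M) :
    ∑ σ : K ≃ₐ[ℚ] K, gw (Fx (j + 1) σ).card ≤ ∑ σ : K ≃ₐ[ℚ] K, gw (Fx j σ).card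
      - (if Even j then ∑ σ : K ≃ₐ[ℚ] K, cw (Fx j σ).card else 0) := by
  have hpos : (0 : ℝ) < (HF K j).card := by exact_mod_cast HF_card_pos j
  have h1 := total_reindex j fun σ : K ≃ₐ[ℚ] K => gw (Fx (j + 1) σ).card
  have h2 : ∀ σ : K ≃ₐ[ℚ] K, ∑ h ∈ HF K j, gw (Fx (j + 1) (σ * h)).card ≤
      (HF K j).card * (gw (Fx j σ).card - (if Even j then cw (Fx j σ).card else 0)) := by
    intro σ
    have h3 : ∑ h ∈ HF K j, gw (Fx (j + 1) (σ * h)).card =
        ∑ h ∈ HF K j, (∑ β ∈ Fx j σ, (1 + sg σ β * sg h β)) /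
          (1 + ∑ β ∈ Fx j σ, (1 + sg σ β * sg h β)) := by
      refine Finset.sum_congr rfl fun h hh => ?_
      unfold gw
      rw [card_mul M j hj σ h hh]
    rw [h3]
    have hs : ∀ i ∈ Fx j σ, sg σ i = 1 ∨ sg σ i = -1 := fun i _ => sg_cases σ i
    have ha : ∀ h ∈ HF K j, ∀ i ∈ Fx j σ, sg h i = 1 ∨ sg h i = -1 :=
      fun h _ i _ => sg_cases h i
    have h0 : ∀ i ∈ Fx j σ, ∑ h ∈ HF K j, sg h i = 0 :=
      fun β hβ => sum_sg M j hj β ((mem_Fx j σ β).1 hβ).1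
    split_ifs with hE
    · have hsq := step_sq (HF K j) (Fx j σ) (sg σ) sg
        (fun i hi => by rcases hs i hi with e | e <;> rw [e] <;> norm_num)
        (fun h hh i hi => by rcases ha h hh i hi with e | e <;> rw [e] <;> norm_num)
        (fun i hi i' hi' hne => orth_sg M j hE hj i i' ((mem_Fx j σ i).1 hi).1
          ((mem_Fx j σ i').1 hi').1 hne)
      have h4 := step_g (HF K j) (Fx j σ) (sg σ) sg hs ha h0 _ hsq.symm.le
      refine h4.trans (le_of_eq ?_)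
      unfold gw cw
      rw [mul_sub, mul_div_assoc]
    · have h4 := step_g (HF K j) (Fx j σ) (sg σ) sg hs ha h0 0
        (Finset.sum_nonneg fun h _ => sq_nonneg _)
      rw [zero_div, sub_zero] at h4
      rw [sub_zero]
      exact h4
  have h3 : ((HF K j).card : ℝ) * ∑ σ : K ≃ₐ[ℚ] K, gw (Fx (j + 1) σ).card ≤
      (HF K j).card * (∑ σ : K ≃ₐ[ℚ] K, gw (Fx j σ).card
      - (if Even j then ∑ σ : K ≃ₐ[ℚ] K, cw (Fx j σ).card else 0)) := by
    rw [h1]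
    refine (Finset.sum_le_sum fun σ _ => h2 σ).trans (le_of_eq ?_)
    rw [← Finset.mul_sum, Finset.sum_sub_distrib]
    congr 2
    split_ifs
    · rfl
    · simp
  exact le_of_mul_le_mul_left h3 hpos

end

end Pool.Agent.R369.Bas
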