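import Mathlib
import Pool.Agent.R369.Bas.Glob3

/-!
The final bound for the proportion of automorphisms with a fixed root.
-/

namespace Pool.Agent.R369.Bas

open Polynomial

theorem even_count (n : ℕ) : (Even n → 2 * ((Finset.range n).filter Even).card = n) ∧
    (¬ Even n → 2 * ((Finset.range n).filter Even).card = n + 1) := by
  induction n with
  | zero => simp
  | succ n ih =>
    obtain ⟨h1, h2⟩ := ih
    rw [Finset.range_add_one, Finset.filter_insert]
    constructor
    · intro h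
      have h3 : ¬ Even n := fun h4 => (Nat.even_add_one.1 h) h4
      rw [if_neg h3]
      have := h2 h3
      omega
    · intro h
      have h3 : Even n := by
        by_contra h4
        exact h (Nat.even_add_one.2 h4)
      rw [if_pos h3, Finset.card_insert_of_notMem (by simp)]
      have := h1 h3
      omega

theorem even_count_ge (n : ℕ) : n ≤ 2 * ((Finset.range n).filter Even).card := by
  obtain ⟨h1, h2⟩ := even_count n
  by_cases h : Even n
  · rw [h1 h]
  · rw [h2 h]
    omega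

section

variable (M : ℕ) {K : Type*} [Field K] [Algebra ℚ K] [hsp : IsSplittingField ℚ K (gP ℚ M)]
variable [Fintype (K ≃ₐ[ℚ] K)]

omit hsp [Fintype (K ≃ₐ[ℚ] K)] in
theorem Fx_zero (σ : K ≃ₐ[ℚ] K) : (Fx 0 σ).card = 1 := by
  have : Fx 0 σ = {1} := by
    ext x
    rw [mem_Fx, fI_zero, Finset.mem_singleton]
    constructor
    · exact fun h => h.1
    · rintro rfl
      exact ⟨rfl, map_one σ⟩
  rw [this, Finset.card_singleton]

include hsp in
theorem mean_eq (j : ℕ) (hj : j ≤ M) :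
    ∑ σ : K ≃ₐ[ℚ] K, ((Fx j σ).card : ℝ) = Fintype.card (K ≃ₐ[ℚ] K) := by
  induction j with
  | zero =>
    rw [Finset.sum_congr rfl fun σ _ => by rw [Fx_zero σ]]
    simp
  | succ j ih =>
    rw [mean_succ M j (by omega), ih (by omega)]

include hsp in
theorem tele (n : ℕ) (hn : n ≤ M) :
    ∑ j ∈ (Finset.range n).filter Even, ∑ σ : K ≃ₐ[ℚ] K, cw (Fx j σ).card ≤
      (Fintype.card (K ≃ₐ[ℚ] K) : ℝ) / 2 - ∑ σ : K ≃ₐ[ℚ] K, gw (Fx n σ).card := by
  induction n with
  | zero =>
    simp only [Finset.range_zero, Finset.filter_empty, Finset.sum_empty]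
    rw [Finset.sum_congr rfl fun σ _ => by rw [Fx_zero σ]]
    unfold gw
    simp
    linarith
  | succ n ih =>
    have h1 := ih (by omega)
    have h2 := gamma_step M (K := K) n (by omega)
    rw [Finset.range_add_one, Finset.filter_insert]
    split_ifs at h2 ⊢ with hE
    · rw [Finset.sum_insert (by simp)]
      linarith
    · linarith

omit hsp [Fintype (K ≃ₐ[ℚ] K)] in
theorem Fx_pos (j : ℕ) (hj : j ≤ M) (σ : K ≃ₐ[ℚ] K) (h : (Fx M σ).Nonempty) :
    1 ≤ (Fx j σ).card := by
  obtain ⟨x, hx⟩ := h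
  rw [mem_Fx] at hx
  apply Finset.card_pos.2
  refine ⟨fI (M - j) x, ?_⟩
  rw [mem_Fx, ← fI_add, ← fI_map, hx.2]
  have : j + (M - j) = M := by omega
  rw [this]
  exact ⟨hx.1, rfl⟩

omit hsp [Fintype (K ≃ₐ[ℚ] K)] in
theorem cw_nonneg (x : ℕ) : 0 ≤ cw x := by
  unfold cw
  positivity

open scoped Classical in
include hsp in
theorem final_bound (hM : 1 ≤ M) (R : ℕ) (hR : 1 ≤ R) :
    (((Finset.univ : Finset (K ≃ₐ[ℚ] K)).filter fun σ => (Fx M σ).Nonempty).card : ℝ) ≤
      Fintype.card (K ≃ₐ[ℚ] K) * (1 / R + ((1 + (R : ℝ)) ^ 2 * (1 + 2 * R)) / M) := by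
  set N : ℝ := (((Finset.univ : Finset (K ≃ₐ[ℚ] K)).filter fun σ => (Fx M σ).Nonempty).card : ℝ)
    with hN
  set g : ℝ := (Fintype.card (K ≃ₐ[ℚ] K) : ℝ) with hg
  set DR : ℝ := (1 + (R : ℝ)) ^ 2 * (1 + 2 * R) with hD
  have hR' : (1 : ℝ) ≤ R := by exact_mod_cast hR
  have hg0 : 0 ≤ g := by positivity
  have hD0 : 0 ≤ DR := by positivity
  have h1 : ∀ j ≤ M, N ≤ g / R + DR * ∑ σ : K ≃ₐ[ℚ] K, cw (Fx j σ).card := by
    intro j hj
    have h2 : N = ∑ σ : K ≃ₐ[ℚ] K, (if (Fx M σ).Nonempty then (1 : ℝ) else 0) := by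
      rw [hN, Finset.card_filter]
      push_cast
      rfl
    have h3 : g / R + DR * ∑ σ : K ≃ₐ[ℚ] K, cw (Fx j σ).card =
        ∑ σ : K ≃ₐ[ℚ] K, (((Fx j σ).card : ℝ) / R + DR * cw (Fx j σ).card) := by
      rw [Finset.sum_add_distrib, ← Finset.sum_div, mean_eq M j hj, ← Finset.mul_sum]
    rw [h2, h3]
    apply Finset.sum_le_sum
    intro σ _
    split_ifs with h4
    · exact point_bound R hR _ (Fx_pos M j hj σ h4)
    · have := cw_nonneg (Fx j σ).card
      positivity
  set E := (Finset.range M).filter Even with hE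
  have h2 : (E.card : ℝ) * N ≤ E.card * (g / R) + DR * (g / 2) := by
    have h3 : ∑ _j ∈ E, N ≤ ∑ j ∈ E, (g / R + DR * ∑ σ : K ≃ₐ[ℚ] K, cw (Fx j σ).card) := by
      apply Finset.sum_le_sum
      intro j hj
      apply h1
      rw [hE, Finset.mem_filter, Finset.mem_range] at hj
      omega
    rw [Finset.sum_const, nsmul_eq_mul, Finset.sum_add_distrib, Finset.sum_const, nsmul_eq_mul,
      ← Finset.mul_sum] at h3
    have h4 := tele M (K := K) M le_rfl
    have h5 : 0 ≤ ∑ σ : K ≃ₐ[ℚ] K, gw (Fx M σ).card := by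
      apply Finset.sum_nonneg
      intro σ _
      unfold gw
      positivity
    have h6 : ∑ j ∈ E, ∑ σ : K ≃ₐ[ℚ] K, cw (Fx j σ).card ≤ g / 2 := by linarith
    have h7 := mul_le_mul_of_nonneg_left h6 hD0
    linarith
  have h3 : (M : ℝ) ≤ 2 * E.card := by exact_mod_cast even_count_ge M
  have hM' : (1 : ℝ) ≤ M := by exact_mod_cast hM
  have hEpos : (0 : ℝ) < E.card := by linarith
  have h4 : N ≤ g / R + DR * (g / 2) / E.card := by
    rw [← sub_nonneg] at h2 ⊢
    have : g / R + DR * (g / 2) / E.card - N =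
        (E.card * (g / R) + DR * (g / 2) - E.card * N) / E.card := by
      field_simp
    rw [this]
    positivity
  have h5 : DR * (g / 2) / E.card ≤ DR * g / M := by
    rw [div_le_div_iff₀ hEpos (by linarith)]
    have : DR * (g / 2) * M ≤ DR * (g / 2) * (2 * E.card) :=
      mul_le_mul_of_nonneg_left h3 (by positivity)
    linarith
  have h6 : g * (1 / R + DR / M) = g / R + DR * g / M := by ring
  rw [h6]
  linarith

end

end Pool.Agent.R369.Bas
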